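import Mathlib
import Pool.Agent.H305R2.AE1

set_option autoImplicit false

/-!
# A law of large numbers for nonnegative functions that are nearly uncorrelated on dyadic blocks
-/

namespace Pool.Agent.Helper92K9.MP

open Finset Filter Topology MeasureTheory Asymptotics

variable {X : Type} [MeasurableSpace X] {μ : Measure X} [IsFiniteMeasure μ]

lemma int_bdd' {f : X → ℝ} (hf : Measurable f) (hb : ∃ B, ∀ x, |f x| ≤ B) : Integrable f μ := by
  obtain ⟨B, hB⟩ := hb
  exact Integrable.of_bound hf.aestronglyMeasurable B (Eventually.of_forall fun z => hB z)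

lemma bdd_mul {f g : X → ℝ} (hf : ∃ B, ∀ x, |f x| ≤ B) (hg : ∃ B, ∀ x, |g x| ≤ B) :
    ∃ B, ∀ x, |f x * g x| ≤ B := by
  obtain ⟨B1, h1⟩ := hf
  obtain ⟨B2, h2⟩ := hg
  refine ⟨|B1| * |B2|, fun x => ?_⟩
  rw [abs_mul]
  exact mul_le_mul ((h1 x).trans (le_abs_self _)) ((h2 x).trans (le_abs_self _)) (abs_nonneg _) (abs_nonneg _)

lemma block_sq {Z : ℕ → X → ℝ} {C : ℝ} {l0 : ℕ} (hm : ∀ j, Measurable (Z j))
    (hbd : ∀ j, ∃ B, ∀ x, |Z j x| ≤ B) (hC0 : 0 ≤ C) (hC : ∀ j, ∫ x, (Z j x) ^ 2 ∂μ ≤ C)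
    {M N : ℕ} (hM : 0 < M) (hN : N ≤ 2 * M)
    (hcov : ∀ i j, M ≤ i → i + l0 ≤ j → j ≤ 2 * i → |∫ x, Z i x * Z j x ∂μ| ≤ C / i) :
    ∫ x, (∑ j ∈ Finset.Ico M N, Z j x) ^ 2 ∂μ ≤ (2 * l0 + 1) * C * M := by
  classical
  have hM0 : (0 : ℝ) < M := by exact_mod_cast hM
  have hprod : ∀ i j, Integrable (fun x => Z i x * Z j x) μ := fun i j =>
    int_bdd' ((hm i).mul (hm j)) (bdd_mul (hbd i) (hbd j))
  have e1 : ∀ x, (∑ j ∈ Finset.Ico M N, Z j x) ^ 2 =
      ∑ i ∈ Finset.Ico M N, ∑ j ∈ Finset.Ico M N, Z i x * Z j x := fun x => by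
    rw [pow_two, Finset.sum_mul_sum]
  simp only [e1]
  rw [integral_finsetSum _ fun i _ => integrable_finsetSum _ fun j _ => hprod i j]
  have e2 : ∀ i ∈ Finset.Ico M N, ∫ x, ∑ j ∈ Finset.Ico M N, Z i x * Z j x ∂μ ≤ (2 * l0 + 1) * C := by
    intro i hi
    rw [Finset.mem_Ico] at hi
    rw [integral_finsetSum _ fun j _ => hprod i j]
    have e3 : ∀ j ∈ Finset.Ico M N, ∫ x, Z i x * Z j x ∂μ ≤
        (if j ∈ Finset.Ico (i - l0) (i + l0) then C else 0) + C / M := by
      intro j hj
      rw [Finset.mem_Ico] at hj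
      have hCM : 0 ≤ C / M := by positivity
      by_cases hij : j ∈ Finset.Ico (i - l0) (i + l0)
      · rw [if_pos hij]
        have h1 : ∫ x, Z i x * Z j x ∂μ ≤ ∫ x, ((Z i x) ^ 2 + (Z j x) ^ 2) / 2 ∂μ := by
          refine integral_mono (hprod i j) ?_ fun x => ?_
          · simp only [pow_two]
            exact ((hprod i i).add (hprod j j)).div_const 2
          · show Z i x * Z j x ≤ ((Z i x) ^ 2 + (Z j x) ^ 2) / 2
            nlinarith [sq_nonneg (Z i x - Z j x)]
        rw [integral_div, integral_add (by simpa only [pow_two] using hprod i i)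
          (by simpa only [pow_two] using hprod j j)] at h1
        have h2 := hC i
        have h3 := hC j
        linarith
      · rw [if_neg hij, zero_add]
        rw [Finset.mem_Ico, not_and_or, not_le, not_lt] at hij
        rcases hij with h | h
        · have h1 := hcov j i hj.1 (by omega) (by omega)
          have h2 : C / j ≤ C / M := by
            apply div_le_div_of_nonneg_left hC0 hM0
            exact_mod_cast hj.1
          have h3 := (le_abs_self _).trans h1
          simp only [mul_comm (Z j _)] at h3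
          linarith
        · have h1 := hcov i j hi.1 (by omega) (by omega)
          have h2 : C / i ≤ C / M := by
            apply div_le_div_of_nonneg_left hC0 hM0
            exact_mod_cast hi.1
          have h3 := (le_abs_self _).trans h1
          linarith
    refine (Finset.sum_le_sum e3).trans ?_
    rw [Finset.sum_add_distrib, ← Finset.sum_filter, Finset.sum_const, Finset.sum_const, nsmul_eq_mul,
      nsmul_eq_mul]
    have c1 : (((Finset.Ico M N).filter (fun j => j ∈ Finset.Ico (i - l0) (i + l0))).card : ℝ) ≤ 2 * l0 := by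
      have h1 : ((Finset.Ico M N).filter (fun j => j ∈ Finset.Ico (i - l0) (i + l0))).card ≤
          (Finset.Ico (i - l0) (i + l0)).card :=
        Finset.card_le_card fun j hj => (Finset.mem_filter.1 hj).2
      rw [Nat.card_Ico] at h1
      have h2 : i + l0 - (i - l0) ≤ 2 * l0 := by omega
      exact_mod_cast h1.trans h2
    have c2 : ((Finset.Ico M N).card : ℝ) ≤ M := by
      rw [Nat.card_Ico]
      exact_mod_cast (by omega : N - M ≤ M)
    have c3 : ((Finset.Ico M N).card : ℝ) * (C / M) ≤ C := by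
      calc ((Finset.Ico M N).card : ℝ) * (C / M) ≤ M * (C / M) := by gcongr
        _ = C := by field_simp
    have c4 : (((Finset.Ico M N).filter (fun j => j ∈ Finset.Ico (i - l0) (i + l0))).card : ℝ) * C ≤ 2 * l0 * C := by
      gcongr
    linarith
  refine (Finset.sum_le_sum e2).trans ?_
  rw [Finset.sum_const, nsmul_eq_mul, Nat.card_Ico]
  have c2 : ((N - M : ℕ) : ℝ) ≤ M := by exact_mod_cast (by omega : N - M ≤ M)
  calc ((N - M : ℕ) : ℝ) * ((2 * l0 + 1) * C) ≤ M * ((2 * l0 + 1) * C) := by gcongr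
    _ = _ := by ring

theorem lln {Y : ℕ → X → ℝ} {a : ℕ → ℝ} {b C : ℝ} {i0 l0 : ℕ} (hm : ∀ j, Measurable (Y j))
    (hbd : ∀ j, ∃ B, ∀ x, |Y j x| ≤ B) (h0 : ∀ j x, 0 ≤ Y j x)
    (ha : Tendsto a atTop (𝓝 b))
    (hC : ∀ j, ∫ x, (Y j x - a j) ^ 2 ∂μ ≤ C)
    (hcov : ∀ i j, i0 ≤ i → i + l0 ≤ j → j ≤ 2 * i →
      |∫ x, (Y i x - a i) * (Y j x - a j) ∂μ| ≤ C / i) :
    ∀ᵐ x ∂μ, Tendsto (fun J : ℕ => (∑ j ∈ Finset.range J, Y j x) / (J : ℝ)) atTop (𝓝 b) := by
  have hC0 : 0 ≤ C := (integral_nonneg fun x => sq_nonneg _).trans (hC 0)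
  set Z : ℕ → X → ℝ := fun j x => Y j x - a j with hZ
  have hZm : ∀ j, Measurable (Z j) := fun j => (hm j).sub_const _
  have hZb : ∀ j, ∃ B, ∀ x, |Z j x| ≤ B := fun j => by
    obtain ⟨B, hB⟩ := hbd j
    refine ⟨B + |a j|, fun x => ?_⟩
    exact (abs_sub _ _).trans (by linarith [hB x])
  -- the statement for one ratio
  have key : ∀ θ : ℝ, 1 < θ → θ < 2 → ∀ᵐ x ∂μ, Tendsto (fun l : ℕ =>
      (∑ j ∈ Finset.range ⌊θ ^ l⌋₊, Y j x) / (⌊θ ^ l⌋₊ : ℝ)) atTop (𝓝 b) := by
    intro θ h1 h2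
    have hθ0 : 0 < θ := by linarith
    set N : ℕ → ℕ := fun l => ⌊θ ^ l⌋₊ with hN
    have hpow1 : ∀ l, 1 ≤ θ ^ l := fun l => one_le_pow₀ h1.le
    have hN1 : ∀ l, 1 ≤ N l := fun l => by
      rw [hN]
      exact Nat.le_floor (by rw [Nat.cast_one]; exact hpow1 l)
    have hNle : ∀ l, (N l : ℝ) ≤ θ ^ l := fun l => Nat.floor_le (by positivity)
    have hNge : ∀ l, θ ^ l / 2 ≤ (N l : ℝ) := fun l => by
      have := Nat.lt_floor_add_one (θ ^ l)
      have h3 : (1 : ℝ) ≤ N l := by exact_mod_cast hN1 l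
      have h4 : θ ^ l < (N l : ℝ) + 1 := this
      linarith
    have hNmono : Monotone N := fun i j hij => Nat.floor_le_floor (pow_le_pow_right₀ h1.le hij)
    have hθinf : Tendsto (fun l : ℕ => θ ^ l) atTop atTop := tendsto_pow_atTop_atTop_of_one_lt h1
    have hNinf : Tendsto N atTop atTop := tendsto_nat_floor_atTop.comp hθinf
    -- late blocks are short
    have hlate : ∀ᶠ l : ℕ in atTop, i0 ≤ N l ∧ N (l + 1) ≤ 2 * N l := by
      filter_upwards [hNinf.eventually_ge_atTop i0, hθinf.eventually_ge_atTop (2 / (2 - θ))] with l h3 h4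
      refine ⟨h3, ?_⟩
      rw [div_le_iff₀ (by linarith)] at h4
      have h5 : θ ^ l < (N l : ℝ) + 1 := Nat.lt_floor_add_one _
      have h6 : (N (l + 1) : ℝ) ≤ θ ^ l * θ := by rw [← pow_succ]; exact hNle _
      have h7 : (N (l + 1) : ℝ) ≤ 2 * N l := by nlinarith
      exact_mod_cast h7
    obtain ⟨l1, hl1⟩ := eventually_atTop.1 hlate
    set B : ℕ → X → ℝ := fun l x => ∑ j ∈ Finset.Ico (N l) (N (l + 1)), Z j x with hB
    have hBm : ∀ l, Measurable (B l) := fun l => Finset.measurable_fun_sum _ fun j _ => hZm j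
    have hBb : ∀ l, ∃ D, ∀ x, |B l x| ≤ D := fun l => by
      choose D hD using hZb
      exact ⟨∑ j ∈ Finset.Ico (N l) (N (l + 1)), D j, fun x =>
        (Finset.abs_sum_le_sum_abs _ _).trans (Finset.sum_le_sum fun j _ => hD j x)⟩
    have hBsq : ∀ l, l1 ≤ l → ∫ x, (B l x) ^ 2 ∂μ ≤ (2 * l0 + 1) * C * θ ^ l := by
      intro l hl
      obtain ⟨h3, h4⟩ := hl1 l hl
      have h5 := block_sq (μ := μ) (M := N l) (N := N (l + 1)) hZm hZb hC0 hC (by
        have := hN1 l; omega) h4 (fun i j hi hj hj2 => hcov i j (h3.trans hi) hj hj2)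
      refine h5.trans ?_
      have := hNle l
      gcongr
    have hae := Pool.Agent.H305R2.ae_tendsto_zero (μ := μ) (fun l x => B (l + l1) x / θ ^ (l + l1))
      (fun l => (hBm _).div_const _) (fun l => by
        refine int_bdd' (((hBm _).div_const _).pow_const 2) ?_
        obtain ⟨D, hD⟩ := hBb (l + l1)
        refine ⟨D ^ 2, fun x => ?_⟩
        rw [abs_pow, abs_div, abs_of_pos (by positivity : 0 < θ ^ (l + l1))]
        refine pow_le_pow_left₀ (by positivity) ?_ 2
        exact (div_le_self (abs_nonneg _) (hpow1 _)).trans (hD x)) (by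
        refine Summable.of_nonneg_of_le (fun l => integral_nonneg fun x => sq_nonneg _)
          (f := fun l => (2 * l0 + 1) * C * (θ⁻¹) ^ l) (fun l => ?_) ?_
        · have h3 := hBsq (l + l1) (by omega)
          simp only [div_pow]
          rw [integral_div, div_le_iff₀ (by positivity)]
          refine h3.trans ?_
          have e : (2 * l0 + 1) * C * θ⁻¹ ^ l * (θ ^ (l + l1)) ^ 2 =
              (2 * l0 + 1) * C * θ ^ (l + l1) * (θ⁻¹ ^ l * θ ^ (l + l1)) := by ring
          rw [e]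
          have e2 : θ⁻¹ ^ l * θ ^ (l + l1) = θ ^ l1 := by
            rw [pow_add, inv_pow]
            field_simp
          rw [e2]
          exact le_mul_of_one_le_right (by positivity) (hpow1 l1)
        · exact (summable_geometric_of_lt_one (by positivity) (inv_lt_one_of_one_lt₀ h1)).mul_left _)
    filter_upwards [hae] with x hx
    have hx2 : Tendsto (fun l => B l x / θ ^ l) atTop (𝓝 0) :=
      (tendsto_add_atTop_iff_nat (f := fun l => B l x / θ ^ l) l1).1 hx
    have hlo : (fun l => B l x) =o[atTop] fun l : ℕ => θ ^ l := by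
      rw [isLittleO_iff_tendsto' (Eventually.of_forall fun l h => absurd h (by positivity))]
      exact hx2
    have hsumo := hlo.sum_range (fun l => by positivity) (by
      refine tendsto_atTop_mono (fun n => ?_) (tendsto_natCast_atTop_atTop (R := ℝ))
      calc (n : ℝ) = ∑ i ∈ Finset.range n, (1 : ℝ) := by simp
        _ ≤ ∑ i ∈ Finset.range n, θ ^ i := Finset.sum_le_sum fun i _ => hpow1 i)
    have hgeo : (fun l : ℕ => ∑ i ∈ Finset.range l, θ ^ i) =O[atTop] fun l : ℕ => (N l : ℝ) := by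
      refine IsBigO.of_bound (2 / (θ - 1)) (Eventually.of_forall fun l => ?_)
      rw [geom_sum_eq h1.ne', Real.norm_eq_abs, Real.norm_eq_abs, abs_of_nonneg (by
        have := hpow1 l
        exact div_nonneg (by linarith) (by linarith)), abs_of_nonneg (Nat.cast_nonneg _)]
      have h3 := hNge l
      rw [div_mul_eq_mul_div]
      gcongr
      linarith
    have hZo := hsumo.trans_isBigO hgeo
    have hZt : Tendsto (fun l => (∑ i ∈ Finset.range l, B i x) / (N l : ℝ)) atTop (𝓝 0) := by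
      rw [isLittleO_iff_tendsto' (Eventually.of_forall fun l h => absurd h (by
        have := hN1 l
        have : (0 : ℝ) < N l := by exact_mod_cast (by omega : 0 < N l)
        exact this.ne'))] at hZo
      exact hZo
    have hN0 : N 0 = 1 := by simp [hN]
    have htel : ∀ l, ∑ i ∈ Finset.range l, B i x = ∑ j ∈ Finset.Ico (N 0) (N l), Z j x := by
      intro l
      induction l with
      | zero => simp
      | succ l ih =>
        rw [Finset.sum_range_succ, ih]
        exact Finset.sum_Ico_consecutive _ (hNmono (Nat.zero_le _)) (hNmono (Nat.le_succ _))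
    have hNr : Tendsto (fun l => (N l : ℝ)) atTop atTop := tendsto_natCast_atTop_atTop.comp hNinf
    have hces := (ha.cesaro).comp hNinf
    have h3 : Tendsto (fun l => Z 0 x / (N l : ℝ)) atTop (𝓝 0) := hNr.const_div_atTop _
    have h4 := (hZt.add h3).add hces
    rw [zero_add, zero_add] at h4
    refine h4.congr fun l => ?_
    have h5 : ∑ j ∈ Finset.range (N l), Z j x = Z 0 x + ∑ j ∈ Finset.Ico (N 0) (N l), Z j x := by
      rw [hN0, Finset.range_eq_Ico, ← Finset.sum_Ico_consecutive _ (Nat.zero_le 1) (hN1 l)]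
      simp
    have h6 : ∑ j ∈ Finset.range (N l), Z j x = ∑ j ∈ Finset.range (N l), Y j x - ∑ j ∈ Finset.range (N l), a j := by
      rw [← Finset.sum_sub_distrib]
    rw [htel]
    simp only [Function.comp]
    have h7 : ∑ j ∈ Finset.range (N l), Y j x = (Z 0 x + ∑ j ∈ Finset.Ico (N 0) (N l), Z j x) +
        ∑ j ∈ Finset.range (N l), a j := by linarith
    show _ = (∑ j ∈ Finset.range (N l), Y j x) / (N l : ℝ)
    rw [h7]
    ring
  have hall : ∀ᵐ x ∂μ, ∀ n : ℕ, Tendsto (fun l : ℕ =>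
      (∑ j ∈ Finset.range ⌊(1 + 1 / ((n : ℝ) + 2)) ^ l⌋₊, Y j x) / (⌊(1 + 1 / ((n : ℝ) + 2)) ^ l⌋₊ : ℝ))
      atTop (𝓝 b) := by
    rw [ae_all_iff]
    intro n
    have hn : (0 : ℝ) ≤ n := Nat.cast_nonneg n
    refine key _ ?_ ?_
    · have : 0 < 1 / ((n : ℝ) + 2) := by positivity
      linarith
    · have : 1 / ((n : ℝ) + 2) < 1 := by rw [div_lt_one (by positivity)]; linarith
      linarith
  filter_upwards [hall] with x hx
  refine tendsto_div_of_monotone_of_tendsto_div_floor_pow (fun J => ∑ j ∈ Finset.range J, Y j x) b ?_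
    (fun n => 1 + 1 / ((n : ℝ) + 2)) (fun n => ?_) ?_ hx
  · intro i j hij
    exact Finset.sum_le_sum_of_subset_of_nonneg (Finset.range_mono hij) fun j _ _ => h0 j x
  · have : 0 < 1 / ((n : ℝ) + 2) := by positivity
    linarith
  · have h1 : Tendsto (fun n : ℕ => 1 / ((n : ℝ) + 2)) atTop (𝓝 0) := by
      have h2 : Tendsto (fun n : ℕ => (n : ℝ) + 2) atTop atTop :=
        tendsto_atTop_add_const_right _ _ tendsto_natCast_atTop_atTop
      exact h2.const_div_atTop 1
    have h2 := h1.const_add 1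
    rwa [add_zero] at h2

end Pool.Agent.Helper92K9.MP
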