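import Pool.Agent.Helper92K9.MP.Shift

set_option autoImplicit false

/-!
# The mean over the parameters and the window means
-/

namespace Pool.Agent.Helper92K9.MP

open Finset Filter Topology MeasureTheory

variable {k : ℕ}

/-- the amplitude with the parameters `c` -/
noncomputable def amp (G ω : ℕ → ℝ) (c : Fin k → ℝ) (p : ℕ) : ℝ :=
  G p + ω p * ∑ j : Fin k, c j * (p : ℝ) ^ (j : ℕ)

/-- indicator of the event that `p` is an exponent -/
noncomputable def gi (α : ℝ) (G ω : ℕ → ℝ) (c : Fin k → ℝ) (p : ℕ) : ℝ := phi p (amp G ω c p * α ^ p)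

lemma gi_nonneg (α : ℝ) (G ω : ℕ → ℝ) (c : Fin k → ℝ) (p : ℕ) : 0 ≤ gi α G ω c p := phi_nonneg _ _
lemma gi_le_one (α : ℝ) (G ω : ℕ → ℝ) (c : Fin k → ℝ) (p : ℕ) : gi α G ω c p ≤ 1 := phi_le_one _ _

lemma measurable_amp (G ω : ℕ → ℝ) (p : ℕ) : Measurable fun c : Fin k → ℝ => amp G ω c p := by
  unfold amp
  fun_prop

lemma measurable_gi (α : ℝ) (G ω : ℕ → ℝ) (p : ℕ) : Measurable fun c : Fin k → ℝ => gi α G ω c p :=
  (measurable_phi p).comp ((measurable_amp G ω p).mul_const _)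

lemma prod_gi_nonneg (α : ℝ) (G ω : ℕ → ℝ) (c : Fin k → ℝ) (P : Finset ℕ) : 0 ≤ ∏ p ∈ P, gi α G ω c p :=
  Finset.prod_nonneg fun p _ => gi_nonneg _ _ _ _ _

lemma prod_gi_le_one (α : ℝ) (G ω : ℕ → ℝ) (c : Fin k → ℝ) (P : Finset ℕ) : ∏ p ∈ P, gi α G ω c p ≤ 1 :=
  Finset.prod_le_one (fun p _ => gi_nonneg _ _ _ _ _) fun p _ => gi_le_one _ _ _ _ _

lemma measurable_prod_gi (α : ℝ) (G ω : ℕ → ℝ) (P : Finset ℕ) :
    Measurable fun c : Fin k → ℝ => ∏ p ∈ P, gi α G ω c p :=
  Finset.measurable_fun_prod P fun p _ => measurable_gi α G ω p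

/-- the shift vector -/
noncomputable def sv {r : ℕ} (k : ℕ) (ω : ℕ → ℝ) (e : Fin r → ℕ) (w : Fin r → ℝ) : Fin k → ℝ :=
  sh k (fun i => (e i : ℝ)) (fun i => w i / ω (e i))

lemma amp_shift {r : ℕ} (hrk : r ≤ k) (G ω : ℕ → ℝ) {e : Fin r → ℕ} (he : Function.Injective e)
    (hω : ∀ i, ω (e i) ≠ 0) (c : Fin k → ℝ) (w : Fin r → ℝ) (l : Fin r) :
    amp G ω (c + sv k ω e w) (e l) = amp G ω c (e l) + w l := by
  unfold amp sv
  have hinj : Function.Injective fun i => (e i : ℝ) := fun a b h => he (Nat.cast_injective (R := ℝ) h)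
  have h := sh_eval hrk hinj (fun i => w i / ω (e i)) l
  simp only [Pi.add_apply, add_mul, Finset.sum_add_distrib, mul_add]
  rw [h, mul_div_cancel₀ _ (hω l)]
  ring

lemma measurable_sv {r : ℕ} (k : ℕ) (ω : ℕ → ℝ) (e : Fin r → ℕ) : Measurable (sv k ω e) := by
  unfold sv
  exact (sh_measurable k _).comp (measurable_pi_lambda _ fun i => (measurable_pi_apply i).div_const _)

lemma int_window {r : ℕ} (α : ℝ) (e : Fin r → ℕ) (a : Fin r → ℝ) {h : ℝ} (hh : 0 < h) :
    ∫ w in Bx (fun _ : Fin r => (0 : ℝ)) (fun _ => h), ∏ i, phi (e i) ((a i + w i) * α ^ (e i)) =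
      h ^ r * ∏ i, Av α (e i) h (a i) := by
  unfold Bx
  rw [volume_pi, Measure.restrict_pi_pi,
    integral_fintype_prod_eq_prod (fun (i : Fin r) (x : ℝ) => phi (e i) ((a i + x) * α ^ (e i)))]
  have h1 : ∀ i : Fin r, ∫ x in Set.Ioc 0 h, phi (e i) ((a i + x) * α ^ (e i)) = h * Av α (e i) h (a i) := by
    intro i
    unfold Av
    rw [intervalIntegral.integral_of_le hh.le, ← mul_assoc, mul_inv_cancel₀ hh.ne', one_mul]
  rw [Finset.prod_congr rfl fun i _ => h1 i, Finset.prod_mul_distrib, Finset.prod_const, Finset.card_univ,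
    Fintype.card_fin]

lemma avg {r : ℕ} (hrk : r ≤ k) (α : ℝ) (G ω : ℕ → ℝ) {e : Fin r → ℕ} (he : Function.Injective e)
    (hω : ∀ i, ω (e i) ≠ 0) (u v : Fin k → ℝ) {h : ℝ} (hh : 0 < h) :
    ∫ w in Bx (fun _ : Fin r => (0 : ℝ)) (fun _ => h), ∫ c in Bx u v,
      ∏ i, gi α G ω (c + sv k ω e w) (e i) =
    h ^ r * ∫ c in Bx u v, ∏ i, Av α (e i) h (amp G ω c (e i)) := by
  have h1 : ∀ (w : Fin r → ℝ) (c : Fin k → ℝ), ∏ i, gi α G ω (c + sv k ω e w) (e i) =
      ∏ i, phi (e i) ((amp G ω c (e i) + w i) * α ^ (e i)) := fun w c => by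
    unfold gi
    exact Finset.prod_congr rfl fun i _ => by rw [amp_shift hrk G ω he hω]
  simp only [h1]
  rw [integral_integral_swap]
  · simp only [int_window α e _ hh]
    rw [integral_const_mul]
  · refine integrable_bdd (C := 1) ?_ fun z => ?_
    · unfold Function.uncurry
      refine Finset.measurable_fun_prod _ fun i _ => ?_
      refine (measurable_phi (e i)).comp ?_
      refine Measurable.mul_const ?_ _
      refine Measurable.add ((measurable_amp G ω (e i)).comp measurable_snd) ?_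
      exact (measurable_pi_apply i).comp measurable_fst
    · simp only [Function.uncurry]
      rw [abs_of_nonneg (Finset.prod_nonneg fun i _ => phi_nonneg _ _)]
      exact Finset.prod_le_one (fun i _ => phi_nonneg _ _) fun i _ => phi_le_one _ _

/-- the comparison -/
lemma compare {r : ℕ} (hrk : r ≤ k) (α : ℝ) (G ω : ℕ → ℝ) {e : Fin r → ℕ} (he : Function.Injective e)
    (hω : ∀ i, ω (e i) ≠ 0) (u v : Fin k → ℝ) {h : ℝ} (hh : 0 < h) {ε : ℝ}
    (hs : ∀ w ∈ Bx (fun _ : Fin r => (0 : ℝ)) (fun _ => h),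
      |(∫ c in Bx u v, ∏ i, gi α G ω (c + sv k ω e w) (e i)) - ∫ c in Bx u v, ∏ i, gi α G ω c (e i)| ≤ ε) :
    |(∫ c in Bx u v, ∏ i, gi α G ω c (e i)) - ∫ c in Bx u v, ∏ i, Av α (e i) h (amp G ω c (e i))| ≤ ε := by
  set T := Bx (fun _ : Fin r => (0 : ℝ)) (fun _ => h) with hT
  set I0 := ∫ c in Bx u v, ∏ i, gi α G ω c (e i) with hI0
  set J : (Fin r → ℝ) → ℝ := fun w => ∫ c in Bx u v, ∏ i, gi α G ω (c + sv k ω e w) (e i) with hJ
  have havg := avg hrk α G ω he hω u v hh
  have hJm : Measurable J := by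
    have hm : Measurable (Function.uncurry fun (w : Fin r → ℝ) (c : Fin k → ℝ) =>
        ∏ i, gi α G ω (c + sv k ω e w) (e i)) := by
      unfold Function.uncurry
      refine Finset.measurable_fun_prod _ fun i _ => ?_
      exact (measurable_gi α G ω (e i)).comp (measurable_snd.add ((measurable_sv k ω e).comp measurable_fst))
    exact (hm.stronglyMeasurable.integral_prod_right (ν := volume.restrict (Bx u v))).measurable
  have hJb : ∀ w, |J w| ≤ (volume : Measure (Fin k → ℝ)).real (Bx u v) := by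
    intro w
    have := norm_setIntegral_le_of_norm_le_const (μ := (volume : Measure (Fin k → ℝ))) (s := Bx u v)
      (f := fun c => ∏ i, gi α G ω (c + sv k ω e w) (e i)) (C := 1) (Bx_lt_top u v) (fun c _ => by
        rw [Real.norm_of_nonneg (Finset.prod_nonneg fun i _ => gi_nonneg _ _ _ _ _)]
        exact Finset.prod_le_one (fun i _ => gi_nonneg _ _ _ _ _) fun i _ => gi_le_one _ _ _ _ _)
    rw [one_mul, Real.norm_eq_abs] at this
    exact this
  have hvolT : (volume : Measure (Fin r → ℝ)).real T = h ^ r := by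
    rw [Measure.real, hT, Bx, Real.volume_pi_Ioc_toReal (fun j => hh.le)]
    simp
  have h2 : |(∫ w in T, (J w - I0))| ≤ ε * h ^ r := by
    have := norm_setIntegral_le_of_norm_le_const (μ := (volume : Measure (Fin r → ℝ))) (s := T)
      (f := fun w => J w - I0) (C := ε) (Bx_lt_top _ _) (fun w hw => by
        rw [Real.norm_eq_abs]
        exact hs w hw)
    rw [hvolT, Real.norm_eq_abs] at this
    exact this
  have hJi : Integrable J (volume.restrict T) := integrable_bdd hJm hJb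
  rw [integral_sub hJi (integrable_const _), setIntegral_const, hvolT, smul_eq_mul] at h2
  have h3 : ∫ w in T, J w = h ^ r * ∫ c in Bx u v, ∏ i, Av α (e i) h (amp G ω c (e i)) := havg
  rw [h3, ← mul_sub, abs_mul, abs_of_pos (pow_pos hh r), mul_comm ε] at h2
  rw [abs_sub_comm]
  exact le_of_mul_le_mul_left h2 (pow_pos hh r)

end Pool.Agent.Helper92K9.MP
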