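import Mathlib

set_option autoImplicit false

/-!
# Bonferroni inequalities
-/

namespace Pool.Agent.Helper92K9.MP

open Finset Filter Topology

/-- alternating partial sums of binomial coefficients -/
lemma alt_sum (n m : ℕ) (hn : 0 < n) :
    |∑ i ∈ Finset.range m, (-1 : ℝ) ^ i * (n.choose i : ℝ)| ≤ (n.choose m : ℝ) := by
  cases m with
  | zero => simp
  | succ m =>
    obtain ⟨n', rfl⟩ : ∃ n', n = n' + 1 := ⟨n - 1, by omega⟩
    have h := Int.alternating_sum_range_choose_eq_choose (n := n') (m := m)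
    have h2 : ∑ i ∈ Finset.range (m + 1), (-1 : ℝ) ^ i * ((n' + 1).choose i : ℝ) =
        (-1) ^ m * (n'.choose m : ℝ) := by exact_mod_cast h
    rw [h2, abs_mul, abs_pow, abs_neg, abs_one, one_pow, one_mul, Nat.abs_cast]
    have h3 : n'.choose m ≤ (n' + 1).choose (m + 1) := by
      rw [Nat.choose_succ_succ]
      omega
    exact_mod_cast h3

/-- coefficient -/
noncomputable def cf (j i : ℕ) : ℝ := ((j.factorial : ℝ) * (i.factorial : ℝ))⁻¹

lemma cf_desc (K j i : ℕ) : cf j i * (K.descFactorial (j + i) : ℝ) =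
    (K.choose j : ℝ) * ((K - j).choose i : ℝ) := by
  have h1 : K.descFactorial (j + i) = K.descFactorial j * (K - j).descFactorial i := by
    induction i with
    | zero => simp
    | succ i ih =>
      rw [← Nat.add_assoc, Nat.descFactorial_succ, ih, Nat.descFactorial_succ, Nat.sub_sub]
      ring
  have h2 : (K.descFactorial j : ℝ) = (j.factorial : ℝ) * (K.choose j : ℝ) := by
    exact_mod_cast Nat.descFactorial_eq_factorial_mul_choose K j
  have h3 : ((K - j).descFactorial i : ℝ) = (i.factorial : ℝ) * ((K - j).choose i : ℝ) := by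
    exact_mod_cast Nat.descFactorial_eq_factorial_mul_choose (K - j) i
  rw [h1]
  push_cast
  rw [h2, h3]
  unfold cf
  have h4 : (j.factorial : ℝ) ≠ 0 := by exact_mod_cast j.factorial_ne_zero
  have h5 : (i.factorial : ℝ) ≠ 0 := by exact_mod_cast i.factorial_ne_zero
  field_simp

/-- the Bonferroni inequality for the indicator of `K = j` -/
lemma bonferroni (K j m : ℕ) :
    |(if K = j then (1 : ℝ) else 0) - ∑ i ∈ Finset.range m, (-1 : ℝ) ^ i * (cf j i * (K.descFactorial (j + i) : ℝ))| ≤
      cf j m * (K.descFactorial (j + m) : ℝ) := by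
  simp only [cf_desc]
  rcases lt_trichotomy K j with h | h | h
  · have h1 : K.choose j = 0 := Nat.choose_eq_zero_of_lt h
    simp [h1, h.ne]
  · subst h
    rw [if_pos rfl, Nat.sub_self, Nat.choose_self]
    cases m with
    | zero => simp
    | succ m =>
      rw [Finset.sum_range_succ']
      simp
  · rw [if_neg h.ne', zero_sub, abs_neg]
    have h1 : ∑ i ∈ Finset.range m, (-1 : ℝ) ^ i * ((K.choose j : ℝ) * ((K - j).choose i : ℝ)) =
        (K.choose j : ℝ) * ∑ i ∈ Finset.range m, (-1 : ℝ) ^ i * ((K - j).choose i : ℝ) := by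
      rw [Finset.mul_sum]
      exact Finset.sum_congr rfl fun i _ => by ring
    rw [h1, abs_mul, Nat.abs_cast]
    exact mul_le_mul_of_nonneg_left (alt_sum _ _ (by omega)) (Nat.cast_nonneg _)

/-- partial sums of the exponential series at a negative argument -/
lemma exp_alt (m : ℕ) : ∀ x : ℝ, 0 ≤ x →
    0 ≤ (-1 : ℝ) ^ m * (Real.exp (-x) - ∑ i ∈ Finset.range m, (-x) ^ i / (i.factorial : ℝ)) ∧
    (-1 : ℝ) ^ m * (Real.exp (-x) - ∑ i ∈ Finset.range m, (-x) ^ i / (i.factorial : ℝ)) ≤
      x ^ m / (m.factorial : ℝ) := by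
  induction m with
  | zero =>
    intro x hx
    simp only [pow_zero, Finset.range_zero, Finset.sum_empty, sub_zero, one_mul, Nat.factorial_zero,
      Nat.cast_one, div_one]
    exact ⟨(Real.exp_pos _).le, Real.exp_le_one_iff.2 (by linarith)⟩
  | succ m ih =>
    intro x hx
    set f : ℕ → ℝ → ℝ := fun m x => (-1 : ℝ) ^ m *
      (Real.exp (-x) - ∑ i ∈ Finset.range m, (-x) ^ i / (i.factorial : ℝ)) with hf
    have hd : ∀ y : ℝ, HasDerivAt (f (m + 1)) (f m y) y := by
      intro y
      have h1 : HasDerivAt (fun x : ℝ => Real.exp (-x)) (-Real.exp (-y)) y := by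
        have := (hasDerivAt_neg y).exp
        simpa using this
      have h2 : HasDerivAt (fun x : ℝ => ∑ i ∈ Finset.range (m + 1), (-x) ^ i / (i.factorial : ℝ))
          (∑ i ∈ Finset.range (m + 1), (-(i * (-y) ^ (i - 1)) / (i.factorial : ℝ))) y := by
        refine HasDerivAt.fun_sum fun i _ => ?_
        have h3 := ((hasDerivAt_neg y).pow i).div_const (i.factorial : ℝ)
        simpa using h3
      have h3 := (h1.sub h2).const_mul ((-1 : ℝ) ^ (m + 1))
      have e : f m y = (-1 : ℝ) ^ (m + 1) * (-Real.exp (-y) -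
          ∑ i ∈ Finset.range (m + 1), (-(i * (-y) ^ (i - 1)) / (i.factorial : ℝ))) := by
        simp only [hf]
        rw [Finset.sum_range_succ']
        have e2 : ∀ i ∈ Finset.range m, -(((i + 1 : ℕ) : ℝ) * (-y) ^ (i + 1 - 1)) / ((i + 1).factorial : ℝ) =
            -((-y) ^ i / (i.factorial : ℝ)) := by
          intro i _
          rw [Nat.add_sub_cancel, Nat.factorial_succ]
          push_cast
          have : (i.factorial : ℝ) ≠ 0 := by exact_mod_cast i.factorial_ne_zero
          have h4 : ((i : ℝ) + 1) ≠ 0 := by positivity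
          field_simp
        rw [Finset.sum_congr rfl e2, Finset.sum_neg_distrib]
        simp only [Nat.cast_zero, zero_mul, neg_zero, zero_div, add_zero, pow_succ]
        ring
      rw [e]
      exact h3
    have hcont : Continuous (f m) := by
      simp only [hf]
      fun_prop
    have hint : ∫ t in (0 : ℝ)..x, f m t = f (m + 1) x - f (m + 1) 0 :=
      intervalIntegral.integral_eq_sub_of_hasDerivAt (fun y _ => hd y) (hcont.intervalIntegrable _ _)
    have h0 : f (m + 1) 0 = 0 := by
      simp only [hf]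
      rw [Finset.sum_range_succ']
      simp
    rw [h0, sub_zero] at hint
    show 0 ≤ f (m + 1) x ∧ f (m + 1) x ≤ x ^ (m + 1) / ((m + 1).factorial : ℝ)
    rw [← hint]
    constructor
    · exact intervalIntegral.integral_nonneg hx fun t ht => (ih t ht.1).1
    · have h5 : ∫ t in (0 : ℝ)..x, f m t ≤ ∫ t in (0 : ℝ)..x, t ^ m / (m.factorial : ℝ) := by
        refine intervalIntegral.integral_mono_on hx (hcont.intervalIntegrable _ _) ?_ fun t ht => (ih t ht.1).2
        exact ((continuous_pow m).div_const _).intervalIntegrable _ _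
      refine h5.trans (le_of_eq ?_)
      rw [intervalIntegral.integral_div, integral_pow, Nat.factorial_succ]
      push_cast
      have : (m.factorial : ℝ) ≠ 0 := by exact_mod_cast m.factorial_ne_zero
      have h4 : ((m : ℝ) + 1) ≠ 0 := by positivity
      rw [zero_pow (by omega), sub_zero]
      field_simp

lemma exp_bound (m : ℕ) {x : ℝ} (hx : 0 ≤ x) :
    |Real.exp (-x) - ∑ i ∈ Finset.range m, (-x) ^ i / (i.factorial : ℝ)| ≤ x ^ m / (m.factorial : ℝ) := by
  obtain ⟨h1, h2⟩ := exp_alt m x hx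
  have h3 := abs_of_nonneg h1
  rw [abs_mul, abs_pow, abs_neg, abs_one, one_pow, one_mul] at h3
  rw [h3]
  exact h2

/-- the limit of the Bonferroni sums -/
lemma pois_bound (j m : ℕ) {x : ℝ} (hx : 0 ≤ x) :
    |∑ i ∈ Finset.range m, (-1 : ℝ) ^ i * (cf j i * x ^ (j + i)) - Real.exp (-x) * x ^ j / (j.factorial : ℝ)| ≤
      cf j m * x ^ (j + m) := by
  have h1 : ∑ i ∈ Finset.range m, (-1 : ℝ) ^ i * (cf j i * x ^ (j + i)) =
      x ^ j / (j.factorial : ℝ) * ∑ i ∈ Finset.range m, (-x) ^ i / (i.factorial : ℝ) := by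
    rw [Finset.mul_sum]
    refine Finset.sum_congr rfl fun i _ => ?_
    unfold cf
    rw [neg_pow x i, pow_add, mul_inv]
    ring
  have h2 := exp_bound m hx
  have h3 : 0 ≤ x ^ j / (j.factorial : ℝ) := by positivity
  have e1 : ∑ i ∈ Finset.range m, (-1 : ℝ) ^ i * (cf j i * x ^ (j + i)) -
      Real.exp (-x) * x ^ j / (j.factorial : ℝ) = -(x ^ j / (j.factorial : ℝ) *
      (Real.exp (-x) - ∑ i ∈ Finset.range m, (-x) ^ i / (i.factorial : ℝ))) := by
    rw [h1]; ring
  rw [e1, abs_neg, abs_mul, abs_of_nonneg h3]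
  calc x ^ j / (j.factorial : ℝ) * |Real.exp (-x) - ∑ i ∈ Finset.range m, (-x) ^ i / (i.factorial : ℝ)| ≤
        x ^ j / (j.factorial : ℝ) * (x ^ m / (m.factorial : ℝ)) := mul_le_mul_of_nonneg_left h2 h3
    _ = _ := by
        unfold cf
        rw [pow_add, mul_inv]
        ring

end Pool.Agent.Helper92K9.MP
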