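import Mathlib
import Pool.Agent.H447R2.ML.P2
import Pool.Agent.H442R2.EHI.PntErr

set_option autoImplicit false

/-!
# Integers with prime rough part in intervals of relative length `p ^ (-K)`

`cnt p A B` is the number of the integers in `(A, B]` whose `p`-rough part is prime.  For intervals of
length at least `A p ^ (-K)` with end points `exp (L p + O (log p))` it is asymptotic to
`VV p (B - A) / (L p)`, where `VV p` is Mertens' product.
-/

namespace Pool.Agent.Helper92K9.MP

open Finset Filter Topology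
open Pool.Agent.H305R2 (SM VV ZZ SMz SM_pos mem_SMz sum_le_VV VV_le VV_tendsto VV_nonneg ZZ_le_exp
  roughPart sum_rough_eq roughPart_mul roughPart_prime)
open Pool.Agent.H447R2.ML (tail_shift large_part)

/-- the number of the integers in `(A, B]` with prime `p`-rough part -/
noncomputable def cnt (p A B : ℕ) : ℝ :=
  (((Finset.Ioc A B).filter (fun m => (roughPart p m).Prime)).card : ℝ)

/-- the primes of `(A / s, B / s]` that are larger than `p` -/
noncomputable def nn (p A B s : ℕ) : ℝ :=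
  (((Finset.Ioc (A / s) (B / s)).filter (fun r => r.Prime ∧ p < r)).card : ℝ)

lemma nn_nonneg (p A B s : ℕ) : 0 ≤ nn p A B s := Nat.cast_nonneg _

open Classical in
lemma card_split (p A B : ℕ) (Q : ℕ → Prop) :
    (((Finset.Ioc A B).filter (fun m => (roughPart p m).Prime ∧ Q (m / roughPart p m))).card : ℝ) =
      ∑ s ∈ (SMz p (B : ℝ)).filter Q, nn p A B s := by
  have h1 : (((Finset.Ioc A B).filter (fun m => (roughPart p m).Prime ∧
      Q (m / roughPart p m))).card : ℝ) =
      ∑ m ∈ (Finset.Ioc A B).filter (fun m => (roughPart p m).Prime),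
        (if Q (m / roughPart p m) then (1 : ℝ) else 0) := by
    rw [← Finset.sum_filter, Finset.filter_filter]
    simp
  rw [h1, sum_rough_eq p A B (fun m => if Q (m / roughPart p m) then (1 : ℝ) else 0),
    Finset.sum_filter]
  refine Finset.sum_congr rfl fun s hs => ?_
  rw [mem_SMz (by positivity)] at hs
  have hterm : ∀ r ∈ (Finset.Ioc (A / s) (B / s)).filter (fun r => r.Prime ∧ p < r),
      (if Q ((s * r) / roughPart p (s * r)) then (1 : ℝ) else 0) = if Q s then (1 : ℝ) else 0 := by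
    intro r hr
    rw [Finset.mem_filter] at hr
    rw [roughPart_mul hs.1 hr.2.1 hr.2.2, Nat.mul_div_cancel s hr.2.1.pos]
  rw [Finset.sum_congr rfl hterm]
  unfold nn
  split_ifs
  · simp
  · simp

lemma cnt_split {p A B : ℕ} {S : ℝ} (hS0 : 0 ≤ S) (hSB : S ≤ B) :
    cnt p A B = ∑ s ∈ SMz p S, nn p A B s +
      (((Finset.Ioc A B).filter (fun m => (roughPart p m).Prime ∧
        S < ((m / roughPart p m : ℕ) : ℝ))).card : ℝ) := by
  classical
  have h1 := card_split p A B (fun _ => True)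
  have h2 := card_split p A B (fun s => S < (s : ℝ))
  simp only [and_true, Finset.filter_true] at h1
  have h3 : cnt p A B = ∑ s ∈ SMz p (B : ℝ), nn p A B s := by
    unfold cnt
    exact h1
  rw [h3, h2, ← Finset.sum_filter_add_sum_filter_not (SMz p (B : ℝ)) (fun s : ℕ => S < (s : ℝ)), add_comm]
  congr 1
  refine Finset.sum_congr ?_ fun _ _ => rfl
  ext s
  rw [Finset.mem_filter, mem_SMz (by positivity), mem_SMz hS0]
  constructor
  · rintro ⟨⟨h4, h5⟩, h6⟩
    exact ⟨h4, not_lt.1 h6⟩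
  · rintro ⟨h4, h5⟩
    exact ⟨⟨h4, h5.trans hSB⟩, not_lt.2 h5⟩

lemma theta_sub {M N : ℕ} (h : M ≤ N) : Chebyshev.theta (N : ℝ) - Chebyshev.theta (M : ℝ) =
    ∑ r ∈ (Finset.Ioc M N).filter Nat.Prime, Real.log r := by
  unfold Chebyshev.theta
  simp only [Nat.floor_natCast]
  have h1 : (Finset.Ioc 0 N).filter Nat.Prime = (Finset.Ioc 0 M).filter Nat.Prime ∪
      (Finset.Ioc M N).filter Nat.Prime := by
    ext r
    simp only [Finset.mem_filter, Finset.mem_union, Finset.mem_Ioc]
    constructor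
    · rintro ⟨⟨h2, h3⟩, h4⟩
      by_cases h5 : r ≤ M
      · exact Or.inl ⟨⟨h2, h5⟩, h4⟩
      · exact Or.inr ⟨⟨by omega, h3⟩, h4⟩
    · rintro (⟨⟨h2, h3⟩, h4⟩ | ⟨⟨h2, h3⟩, h4⟩)
      · exact ⟨⟨h2, h3.trans h⟩, h4⟩
      · exact ⟨⟨by omega, h3⟩, h4⟩
  have h2 : Disjoint ((Finset.Ioc 0 M).filter Nat.Prime) ((Finset.Ioc M N).filter Nat.Prime) := by
    rw [Finset.disjoint_left]
    intro r h3 h4
    simp only [Finset.mem_filter, Finset.mem_Ioc] at h3 h4
    omega
  rw [h1, Finset.sum_union h2]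
  ring

/-- the primes of a window -/
lemma one_s {U : ℕ} {C : ℝ} (hC : 0 < C)
    (hθ : ∀ N : ℕ, 2 ≤ N → |Chebyshev.theta (N : ℝ) - N| ≤ C * (N / Real.log N ^ U))
    {p A B s : ℕ} (hs : 0 < s) (hAB : A ≤ B) {l0 l1 l : ℝ} (h0 : 4 ≤ l0) (h01 : l0 ≤ l) (h1 : l ≤ l1)
    (hA : l0 ≤ Real.log ((A : ℝ) / s)) (hB : Real.log ((B : ℝ) / s) ≤ l1)
    (hp : (p : ℝ) < (A : ℝ) / s) (hA0 : 0 < A) :
    |nn p A B s - ((B : ℝ) - A) / s / l| ≤ ((B : ℝ) - A) / s * (1 / l0 - 1 / l1) +
      (2 * C * ((B : ℝ) / s) / (l0 / 2) ^ U + 1) / l0 := by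
  have hs0 : (0 : ℝ) < s := by exact_mod_cast hs
  have hA0' : (0 : ℝ) < A := by exact_mod_cast hA0
  have hB0' : (0 : ℝ) < B := by exact_mod_cast (lt_of_lt_of_le hA0 hAB)
  have hABr : (A : ℝ) ≤ B := by exact_mod_cast hAB
  set a := (A : ℝ) / s with ha
  set b := (B : ℝ) / s with hb
  have ha0 : 0 < a := by positivity
  have hb0 : 0 < b := by positivity
  have hab : a ≤ b := by rw [ha, hb]; gcongr
  have hy : ((B : ℝ) - A) / s = b - a := by rw [ha, hb]; ring
  rw [hy]
  have hl00 : 0 < l0 := by linarith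
  have hl0 : 0 < l := by linarith
  have hl10 : 0 < l1 := by linarith
  -- the natural number quotients
  set M := A / s with hM
  set N := B / s with hN
  have hMN : M ≤ N := Nat.div_le_div_right hAB
  have hMa : (M : ℝ) ≤ a := Nat.cast_div_le
  have hNb : (N : ℝ) ≤ b := Nat.cast_div_le
  have hMa' : a < M + 1 := by
    rw [ha, div_lt_iff₀ hs0]
    have : A < (A / s + 1) * s := (Nat.div_lt_iff_lt_mul hs).1 (Nat.lt_succ_self _)
    exact_mod_cast this
  have hNb' : b < N + 1 := by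
    rw [hb, div_lt_iff₀ hs0]
    have : B < (B / s + 1) * s := (Nat.div_lt_iff_lt_mul hs).1 (Nat.lt_succ_self _)
    exact_mod_cast this
  have haexp : Real.exp l0 ≤ a := (Real.le_log_iff_exp_le ha0).1 hA
  have he4 : (5 : ℝ) ≤ Real.exp l0 := by
    have := Real.add_one_le_exp l0
    linarith
  have hM2 : 2 ≤ M := by
    have : (4 : ℝ) < M + 1 := by linarith
    have : (3 : ℝ) < M := by linarith
    have : 3 < M := by exact_mod_cast this
    omega
  have hN2 : 2 ≤ N := hM2.trans hMN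
  have hlog : ∀ (T : ℕ) (t : ℝ), a ≤ t → t < T + 1 → (T : ℝ) ≤ t → l0 / 2 ≤ Real.log T := by
    intro T t h1 h2 h3
    have hT : Real.exp (l0 / 2) ≤ T := by
      have e1 : Real.exp l0 = Real.exp (l0 / 2) * Real.exp (l0 / 2) := by
        rw [← Real.exp_add]; ring_nf
      have e2 : 3 ≤ Real.exp (l0 / 2) := by
        have := Real.add_one_le_exp (l0 / 2)
        linarith
      nlinarith
    exact (Real.le_log_iff_exp_le (lt_of_lt_of_le (Real.exp_pos _) hT)).2 hT
  have hlM := hlog M a le_rfl hMa' hMa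
  have hlN := hlog N b hab hNb' hNb
  have hθM := hθ M hM2
  have hθN := hθ N hN2
  have hMe : C * ((M : ℝ) / Real.log M ^ U) ≤ C * (b / (l0 / 2) ^ U) := by
    gcongr
    linarith
  have hNe : C * ((N : ℝ) / Real.log N ^ U) ≤ C * (b / (l0 / 2) ^ U) := by
    gcongr
  set E := 2 * C * b / (l0 / 2) ^ U + 1 with hE
  set Θ := ∑ r ∈ (Finset.Ioc M N).filter Nat.Prime, Real.log r with hΘ
  have hΘE : |Θ - (b - a)| ≤ E := by
    rw [hΘ, ← theta_sub hMN]
    rw [abs_le] at hθM hθN ⊢
    have e : 2 * C * b / (l0 / 2) ^ U = C * (b / (l0 / 2) ^ U) + C * (b / (l0 / 2) ^ U) := by ring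
    rw [hE, e]
    constructor
    · linarith [hθM.1, hθM.2, hθN.1, hθN.2]
    · linarith [hθM.1, hθM.2, hθN.1, hθN.2]
  -- the condition `p < r` is automatic
  have hfil : (Finset.Ioc M N).filter (fun r => r.Prime ∧ p < r) = (Finset.Ioc M N).filter Nat.Prime := by
    refine Finset.filter_congr fun r hr => ?_
    rw [Finset.mem_Ioc] at hr
    constructor
    · exact fun h => h.1
    · intro h
      refine ⟨h, ?_⟩
      have h2 : ((M : ℝ) + 1) ≤ r := by exact_mod_cast hr.1
      have h3 : (p : ℝ) < r := by linarith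
      exact_mod_cast h3
  have hnn : nn p A B s = (((Finset.Ioc M N).filter Nat.Prime).card : ℝ) := by
    unfold nn
    rw [hfil]
  rw [hnn]
  set c := (((Finset.Ioc M N).filter Nat.Prime).card : ℝ) with hc
  have hc0 : 0 ≤ c := Nat.cast_nonneg _
  have hup : Θ ≤ c * l1 := by
    have h2 : Θ ≤ ∑ r ∈ (Finset.Ioc M N).filter Nat.Prime, l1 := by
      refine Finset.sum_le_sum fun r hr => ?_
      rw [Finset.mem_filter, Finset.mem_Ioc] at hr
      have h3 : (r : ℝ) ≤ N := by exact_mod_cast hr.1.2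
      have h4 : (0 : ℝ) < r := by exact_mod_cast hr.2.pos
      exact (Real.log_le_log h4 (h3.trans hNb)).trans hB
    rwa [Finset.sum_const, nsmul_eq_mul] at h2
  have hlow : c * l0 ≤ Θ := by
    have h2 : ∑ r ∈ (Finset.Ioc M N).filter Nat.Prime, l0 ≤ Θ := by
      refine Finset.sum_le_sum fun r hr => ?_
      rw [Finset.mem_filter, Finset.mem_Ioc] at hr
      have h3 : ((M : ℝ) + 1) ≤ r := by exact_mod_cast hr.1.1
      exact hA.trans (Real.log_le_log ha0 (by linarith))
    rwa [Finset.sum_const, nsmul_eq_mul] at h2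
  have hE0 : 0 ≤ E := (abs_nonneg _).trans hΘE
  rw [abs_le] at hΘE
  have c1 : c ≤ ((b - a) + E) / l0 := by
    rw [le_div_iff₀ hl00]
    linarith
  have c2 : ((b - a) - E) / l1 ≤ c := by
    rw [div_le_iff₀ hl10]
    linarith
  have d1 : 1 / l1 ≤ 1 / l := one_div_le_one_div_of_le hl0 h1
  have d2 : 1 / l ≤ 1 / l0 := one_div_le_one_div_of_le hl00 h01
  have hba : 0 ≤ b - a := by linarith
  have f1 := mul_le_mul_of_nonneg_left d1 hba
  have f2 := mul_le_mul_of_nonneg_left d2 hba
  have f3 : E / l1 ≤ E / l0 := div_le_div_of_nonneg_left hE0 hl00 (h01.trans h1)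
  rw [abs_le]
  constructor
  · have e1 : ((b - a) - E) / l1 = (b - a) * (1 / l1) - E / l1 := by ring
    have e2 : (b - a) / l = (b - a) * (1 / l) := by ring
    rw [e2]
    rw [e1] at c2
    linarith
  · have e1 : ((b - a) + E) / l0 = (b - a) * (1 / l0) + E / l0 := by ring
    have e2 : (b - a) / l = (b - a) * (1 / l) := by ring
    rw [e2]
    rw [e1] at c1
    linarith

end Pool.Agent.Helper92K9.MP
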