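import Pool.Agent.Helper92K9.MP.Cnt

set_option autoImplicit false

/-!
# The number of the integers with prime rough part in short windows
-/

namespace Pool.Agent.Helper92K9.MP

open Finset Filter Topology
open Pool.Agent.H305R2 (SM VV ZZ SMz SM_pos mem_SMz sum_le_VV VV_le VV_tendsto VV_nonneg ZZ_le_exp
  roughPart sum_rough_eq roughPart_mul roughPart_prime)
open Pool.Agent.H447R2.ML (tail_shift large_part)

lemma ev_pow (c : ℝ) (n : ℕ) : ∀ᶠ p : ℕ in atTop, c * Real.log p ^ n ≤ p := by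
  have h1 : (fun x : ℝ => Real.log x ^ n) =o[atTop] (fun x : ℝ => x) := Real.isLittleO_pow_log_id_atTop
  have h2 := h1.comp_tendsto (tendsto_natCast_atTop_atTop (R := ℝ))
  have h3 := h2.bound (show (0 : ℝ) < 1 / (|c| + 1) by positivity)
  filter_upwards [h3, eventually_ge_atTop 1] with p hp hp1
  simp only [Function.comp, Real.norm_eq_abs] at hp
  have hp0 : (0 : ℝ) ≤ p := Nat.cast_nonneg _
  rw [abs_of_nonneg hp0] at hp
  have h4 : |c| + 1 > 0 := by positivity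
  calc c * Real.log p ^ n ≤ (|c| + 1) * |Real.log p ^ n| := by
        have : c * Real.log p ^ n ≤ |c| * |Real.log p ^ n| := by
          rw [← abs_mul]; exact le_abs_self _
        nlinarith [abs_nonneg (Real.log (p : ℝ) ^ n)]
    _ ≤ (|c| + 1) * (1 / (|c| + 1) * p) := by gcongr
    _ = p := by field_simp

lemma ev_log (c : ℝ) : ∀ᶠ p : ℕ in atTop, c ≤ Real.log p :=
  Pool.Agent.H305R2.log_nat_tendsto.eventually_ge_atTop c

/-- the sum of the reciprocals of the small smooth numbers -/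
lemma small_sum : ∃ K : ℝ, 0 < K ∧ ∀ᶠ p : ℕ in atTop,
    VV p - ∑ s ∈ SMz p (Real.exp (3 * Real.log p ^ 2)), (s : ℝ)⁻¹ ≤ K * Real.log p / p ^ 3 := by
  obtain ⟨K, hK, htail⟩ := tail_shift
  refine ⟨K + 1, by positivity, ?_⟩
  filter_upwards [htail, ZZ_le_exp (c := 1 / 4) (by norm_num), ev_pow 3 2, ev_pow 12 1, ev_log 1,
    eventually_ge_atTop 2] with p h1 h2 h3 h4 h5 hp2
  have hp0 : (0 : ℝ) < p := by exact_mod_cast (by omega : 0 < p)
  set q := Real.log p with hq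
  have hpe : Real.exp q = p := Real.exp_log hp0
  set S := Real.exp (3 * q ^ 2) with hS
  have hS0 : 0 < S := Real.exp_pos _
  have hT0 : 0 < Real.exp (p : ℝ) := Real.exp_pos _
  have hST : S ≤ Real.exp p := Real.exp_le_exp.2 (by linarith)
  have a1 := VV_le p hT0
  have a2 : Real.exp (p : ℝ) ^ (-(1 / 2) : ℝ) * ZZ p ≤ Real.exp (-(p / 4)) := by
    rw [← Real.exp_mul]
    calc Real.exp (p * -(1 / 2)) * ZZ p ≤ Real.exp (p * -(1 / 2)) * Real.exp (1 / 4 * p) := by gcongr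
      _ = _ := by rw [← Real.exp_add]; ring_nf
  have a3 : Real.exp (-(p / 4 : ℝ)) ≤ q / p ^ 3 := by
    have e1 : Real.exp (-(p / 4 : ℝ)) ≤ Real.exp (-(3 * q)) := Real.exp_le_exp.2 (by linarith)
    have e2 : Real.exp (-(3 * q)) = 1 / p ^ 3 := by
      rw [Real.exp_neg, one_div, ← hpe, ← Real.exp_nat_mul]
      push_cast
      rfl
    rw [e2] at e1
    refine e1.trans ?_
    gcongr
  have a4 : ∑ n ∈ SMz p (Real.exp p), (n : ℝ)⁻¹ = ∑ n ∈ SMz p S, (n : ℝ)⁻¹ +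
      ∑ n ∈ (SMz p (Real.exp p)).filter (fun n : ℕ => S < (n : ℝ)), (n : ℝ)⁻¹ := by
    rw [← Finset.sum_filter_add_sum_filter_not (SMz p (Real.exp p)) (fun n : ℕ => S < (n : ℝ)), add_comm]
    congr 1
    refine Finset.sum_congr ?_ fun _ _ => rfl
    ext s
    rw [Finset.mem_filter, mem_SMz hT0.le, mem_SMz hS0.le]
    constructor
    · rintro ⟨⟨h4, h5⟩, h6⟩
      exact ⟨h4, not_lt.1 h6⟩
    · rintro ⟨h4, h5⟩
      exact ⟨⟨h4, h5.trans hST⟩, not_lt.2 h5⟩
  have a5 := h1 S hS0 ((SMz p (Real.exp p)).filter (fun n : ℕ => S < (n : ℝ))) (by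
    intro n hn
    rw [Finset.mem_filter, mem_SMz hT0.le] at hn
    exact ⟨hn.1.1, hn.2.le⟩)
  have hq0 : 0 < q := by linarith
  have a6 : S ^ (-(1 / q)) = 1 / p ^ 3 := by
    rw [hS, ← Real.exp_mul, show 3 * q ^ 2 * -(1 / q) = -(3 * q) by field_simp, Real.exp_neg, one_div,
      ← hpe, ← Real.exp_nat_mul]
    push_cast
    rfl
  rw [a6] at a5
  have a7 : (K + 1) * q / p ^ 3 = K * q * (1 / p ^ 3) + q / p ^ 3 := by ring
  rw [a7]
  linarith

theorem cnt_asymp {L : ℝ} (hL : 0 < L) (K D : ℕ) : ∃ C : ℝ, 0 < C ∧ ∀ᶠ p : ℕ in atTop,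
    ∀ A B : ℕ, A < B → L * p - D * Real.log p ≤ Real.log A → Real.log B ≤ L * p + D * Real.log p →
    (A : ℝ) ≤ p ^ K * ((B : ℝ) - A) →
    |cnt p A B - VV p * ((B : ℝ) - A) / (L * p)| ≤ C * ((B : ℝ) - A) * (Real.log p ^ 3 / p ^ 2) := by
  obtain ⟨C0, hC0, hθ⟩ := Pool.Agent.H442R2.EHI.PntErrAux.thetaU (K + 2)
  obtain ⟨K3, hK3, hsmall⟩ := small_sum
  obtain ⟨K4, hK4, htail⟩ := tail_shift
  set K1 := Real.exp Real.eulerMascheroniConstant + 1 with hK1
  have hK1pos : 0 < K1 := by positivity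
  have hV : ∀ᶠ p : ℕ in atTop, VV p / Real.log p < K1 :=
    VV_tendsto.eventually_lt_const (by rw [hK1]; linarith)
  set C1 := 4 * C0 * (4 / L) ^ (K + 2) with hC1
  have hC10 : 0 < C1 := by positivity
  set C2 := 4 * (D + 3) / L ^ 2 + C1 + 1 with hC2
  have hC20 : 0 < C2 := by positivity
  refine ⟨C2 * K1 + K3 / L + 2 * K4, by positivity, ?_⟩
  filter_upwards [hsmall, htail, hV, ev_pow ((4 * (D + K + 8 : ℝ)) / L) 2, ev_log 1, ev_log (4 / L),
    ev_log (16 / L),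
    eventually_ge_atTop 3, ev_pow (16 / L) 0] with p h1 h2 h3 h4 h5 h6 h7 hp3 h8 A B hAB hlA hlB hAY
  have hp3' : (3 : ℝ) ≤ p := by exact_mod_cast hp3
  have hp0 : (0 : ℝ) < p := by linarith
  set q := Real.log p with hq
  have hq0 : 0 < q := by linarith
  have hpe : Real.exp q = p := Real.exp_log hp0
  set l := L * p with hl
  have hl0pos : 0 < l := by positivity
  set W := D * q + 3 * q ^ 2 with hW
  have hD0 : (0 : ℝ) ≤ D := Nat.cast_nonneg _
  have hK0 : (0 : ℝ) ≤ K := Nat.cast_nonneg _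
  have hqq : q ≤ q ^ 2 := by nlinarith
  have hbig : 4 * (D + K + 8) * q ^ 2 ≤ l := by
    rw [hl]
    have : 4 * ((D : ℝ) + K + 8) / L * q ^ 2 * L ≤ p * L := by gcongr
    have e : 4 * ((D : ℝ) + K + 8) / L * q ^ 2 * L = 4 * (D + K + 8) * q ^ 2 := by field_simp
    rw [e] at this
    linarith
  have hDq : (D : ℝ) * q ≤ D * q ^ 2 := by gcongr
  have hKq : (K : ℝ) * q ≤ K * q ^ 2 := by gcongr
  have hq2 : 1 ≤ q ^ 2 := one_le_pow₀ h5
  have hDq0 : 0 ≤ (D : ℝ) * q := by positivity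
  have hDq20 : 0 ≤ (D : ℝ) * q ^ 2 := by positivity
  have hKq20 : 0 ≤ (K : ℝ) * q ^ 2 := by positivity
  have hbig' : D * q ^ 2 + K * q ^ 2 + 8 * q ^ 2 ≤ l / 4 := by
    have : 4 * ((D : ℝ) + K + 8) * q ^ 2 = 4 * (D * q ^ 2 + K * q ^ 2 + 8 * q ^ 2) := by ring
    linarith
  have hWl : W ≤ l / 4 := by
    rw [hW]
    linarith
  have hl16 : 16 ≤ l := by
    have : 16 / L * L ≤ p * L := by
      gcongr
      simpa using h8
    rw [div_mul_cancel₀ _ hL.ne'] at this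
    rw [hl]; linarith
  set l0 := l - W with hl0
  set l1 := l + W with hl1
  have hW0 : 0 ≤ W := by positivity
  have hl0half : l / 2 ≤ l0 := by rw [hl0]; linarith
  have hl04 : 4 ≤ l0 := by linarith
  set S := Real.exp (3 * q ^ 2) with hS
  have hS0 : 0 < S := Real.exp_pos _
  have hS1 : 1 ≤ S := Real.one_le_exp (by positivity)
  -- the interval
  have hlA0 : 0 < Real.log A := by
    have : (D : ℝ) * q ≤ W := by rw [hW]; linarith
    linarith
  have hA0 : 0 < A := by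
    rcases Nat.eq_zero_or_pos A with h | h
    · rw [h] at hlA0; simp at hlA0
    · exact h
  have hA0' : (0 : ℝ) < A := by exact_mod_cast hA0
  have hB0 : 0 < B := by omega
  have hB0' : (0 : ℝ) < B := by exact_mod_cast hB0
  have hABr : (A : ℝ) < B := by exact_mod_cast hAB
  set Y := (B : ℝ) - A with hY
  have hY0 : 0 < Y := by rw [hY]; linarith
  have hYc : ((B - A : ℕ) : ℝ) = Y := by rw [Nat.cast_sub hAB.le]
  have hpK1 : (1 : ℝ) ≤ (p : ℝ) ^ K := one_le_pow₀ (by linarith)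
  have hBY : (B : ℝ) ≤ 2 * p ^ K * Y := by
    have e1 : (B : ℝ) = A + Y := by rw [hY]; ring
    have e2 : Y ≤ p ^ K * Y := le_mul_of_one_le_left hY0.le hpK1
    rw [e1]
    linarith
  -- `S p ^ 2 ≤ Y`
  have hSY : S * p ^ 2 ≤ Y := by
    have e1 : S * p ^ 2 * p ^ K ≤ A := by
      rw [← Real.exp_log hA0', ← hpe, ← Real.exp_nat_mul, ← Real.exp_nat_mul, hS, ← Real.exp_add,
        ← Real.exp_add]
      refine Real.exp_le_exp.2 (le_trans ?_ hlA)
      push_cast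
      linarith
    have e2 : S * p ^ 2 * p ^ K ≤ Y * p ^ K := by linarith
    exact le_of_mul_le_mul_right e2 (by positivity)
  have hSB : S ≤ B := by
    have : S * 1 ≤ S * p ^ 2 := by
      gcongr
      exact one_le_pow₀ (by linarith)
    have : Y ≤ B := by rw [hY]; linarith
    linarith
  have hVq : VV p ≤ K1 * q := by
    rw [div_lt_iff₀ hq0] at h3
    exact h3.le
  -- the windows
  have hone : ∀ s ∈ SMz p S, |nn p A B s - Y / l * (s : ℝ)⁻¹| ≤ Y * (C2 * q ^ 2 / p ^ 2) * (s : ℝ)⁻¹ := by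
    intro s hs
    rw [mem_SMz hS0.le] at hs
    have hsn : 0 < s := SM_pos hs.1
    have hs0 : (0 : ℝ) < s := by exact_mod_cast hsn
    have hs1 : (1 : ℝ) ≤ s := by exact_mod_cast hsn
    have hlogs : Real.log s ≤ 3 * q ^ 2 := by
      rw [Real.log_le_iff_le_exp hs0]
      exact hs.2
    have hlogs0 : 0 ≤ Real.log s := Real.log_nonneg hs1
    have hA1 : l0 ≤ Real.log ((A : ℝ) / s) := by
      rw [Real.log_div hA0'.ne' hs0.ne', hl0, hW]
      linarith
    have hB1 : Real.log ((B : ℝ) / s) ≤ l1 := by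
      rw [Real.log_div hB0'.ne' hs0.ne', hl1, hW]
      linarith
    have hpA : (p : ℝ) < (A : ℝ) / s := by
      rw [← hpe]
      refine lt_of_lt_of_le (Real.exp_lt_exp.2 ?_) ((Real.le_log_iff_exp_le (by positivity)).1 hA1)
      linarith
    have h := one_s (U := K + 2) hC0 hθ hsn hAB.le hl04 (by rw [hl0]; linarith) (by rw [hl1]; linarith) (l := l)
      hA1 hB1 hpA hA0
    have e0 : Y / l * (s : ℝ)⁻¹ = ((B : ℝ) - A) / s / l := by rw [hY]; field_simp
    rw [e0]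
    refine h.trans ?_
    have e1 : ((B : ℝ) - A) / s = Y * (s : ℝ)⁻¹ := by rw [hY]; rfl
    rw [e1]
    have hYs : 0 ≤ Y * (s : ℝ)⁻¹ := by positivity
    have hl1l : l ≤ l1 := by rw [hl1]; linarith
    have e2 : 1 / l0 - 1 / l1 ≤ 4 * (D + 3) / L ^ 2 * (q ^ 2 / p ^ 2) := by
      have g1 : 1 / l0 - 1 / l1 = 2 * W / (l0 * l1) := by
        have : l0 ≠ 0 := by linarith
        have : l1 ≠ 0 := by linarith
        field_simp
        rw [hl1, hl0]; ring
      rw [g1]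
      calc 2 * W / (l0 * l1) ≤ 2 * ((D + 3) * q ^ 2) / (l / 2 * l) := by
            have hWD : W ≤ (D + 3) * q ^ 2 := by
              rw [hW]
              have : ((D : ℝ) + 3) * q ^ 2 = D * q ^ 2 + 3 * q ^ 2 := by ring
              linarith
            refine div_le_div₀ (by positivity) (by linarith) (by positivity) ?_
            exact mul_le_mul hl0half hl1l hl0pos.le (by linarith)
        _ = _ := by rw [hl]; field_simp; ring
    have e3 : 2 * C0 * ((B : ℝ) / s) / (l0 / 2) ^ (K + 2) ≤ Y * (s : ℝ)⁻¹ * (C1 / p ^ 2) := by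
      calc 2 * C0 * ((B : ℝ) / s) / (l0 / 2) ^ (K + 2) ≤
          2 * C0 * ((2 * p ^ K * Y) / s) / (l / 4) ^ (K + 2) := by
            refine div_le_div₀ (by positivity) ?_ (by positivity)
              (pow_le_pow_left₀ (by positivity) (by linarith) _)
            gcongr
        _ = _ := by
            have g1 : (l / 4) ^ (K + 2) = (L / 4) ^ (K + 2) * (p ^ K * p ^ 2) := by
              rw [hl, show L * (p : ℝ) / 4 = (L / 4) * p by ring, mul_pow, pow_add (p : ℝ)]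
            have g2 : (4 / L) ^ (K + 2) = 1 / (L / 4) ^ (K + 2) := by
              rw [← one_div_pow, one_div_div]
            rw [g1, hC1, g2]
            have g3 : 0 < (L / 4) ^ (K + 2) := by positivity
            field_simp
            ring
    have e4 : 1 ≤ Y * (s : ℝ)⁻¹ * (1 / p ^ 2) := by
      rw [← div_eq_mul_inv, div_mul_div_comm, mul_one, one_le_div (by positivity)]
      calc (s : ℝ) * p ^ 2 ≤ S * p ^ 2 := by gcongr; exact hs.2
        _ ≤ Y := hSY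
    have e5 : (2 * C0 * ((B : ℝ) / s) / (l0 / 2) ^ (K + 2) + 1) / l0 ≤ Y * (s : ℝ)⁻¹ * ((C1 + 1) / p ^ 2) := by
      rw [div_le_iff₀ (by linarith)]
      have g1 : 0 ≤ Y * (s : ℝ)⁻¹ * ((C1 + 1) / p ^ 2) := by positivity
      have g2 : Y * (s : ℝ)⁻¹ * ((C1 + 1) / p ^ 2) = Y * (s : ℝ)⁻¹ * (C1 / p ^ 2) + Y * (s : ℝ)⁻¹ * (1 / p ^ 2) := by
        ring
      have g3 : Y * (s : ℝ)⁻¹ * ((C1 + 1) / p ^ 2) ≤ Y * (s : ℝ)⁻¹ * ((C1 + 1) / p ^ 2) * l0 :=
        le_mul_of_one_le_right g1 (by linarith)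
      linarith
    have e6 := mul_le_mul_of_nonneg_left e2 hYs
    have e7 : Y * (s : ℝ)⁻¹ * ((C1 + 1) / p ^ 2) ≤ Y * (s : ℝ)⁻¹ * ((C1 + 1) * (q ^ 2 / p ^ 2)) := by
      refine mul_le_mul_of_nonneg_left ?_ hYs
      rw [mul_div_assoc']
      gcongr
      exact le_mul_of_one_le_right (by positivity) hq2
    calc _ ≤ Y * (s : ℝ)⁻¹ * (4 * (D + 3) / L ^ 2 * (q ^ 2 / p ^ 2)) +
          Y * (s : ℝ)⁻¹ * ((C1 + 1) * (q ^ 2 / p ^ 2)) := by linarith
      _ = _ := by rw [hC2]; ring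
  have hSig : ∑ s ∈ SMz p S, (s : ℝ)⁻¹ ≤ VV p := sum_le_VV p _ fun s hs => ((mem_SMz hS0.le).1 hs).1
  have hsum : |∑ s ∈ SMz p S, nn p A B s - Y / l * ∑ s ∈ SMz p S, (s : ℝ)⁻¹| ≤
      Y * (C2 * q ^ 2 / p ^ 2) * (K1 * q) := by
    rw [Finset.mul_sum, ← Finset.sum_sub_distrib]
    calc _ ≤ ∑ s ∈ SMz p S, |nn p A B s - Y / l * (s : ℝ)⁻¹| := Finset.abs_sum_le_sum_abs _ _
      _ ≤ ∑ s ∈ SMz p S, Y * (C2 * q ^ 2 / p ^ 2) * (s : ℝ)⁻¹ := Finset.sum_le_sum hone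
      _ = Y * (C2 * q ^ 2 / p ^ 2) * ∑ s ∈ SMz p S, (s : ℝ)⁻¹ := by rw [Finset.mul_sum]
      _ ≤ _ := by
        refine mul_le_mul_of_nonneg_left (hSig.trans hVq) (by positivity)
  have hlarge : (((Finset.Ioc A B).filter (fun m => (roughPart p m).Prime ∧
        S < ((m / roughPart p m : ℕ) : ℝ))).card : ℝ) ≤ 2 * Y * (K4 * q * (1 / p ^ 3)) := by
    have g1 := large_part (A := A) (B := B) (q := p) hAB.le hS1 (by
      rw [hYc]
      refine le_trans ?_ hSY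
      gcongr
      rw [pow_two]
      exact le_mul_of_one_le_left hp0.le (by linarith))
    rw [hYc] at g1
    refine g1.trans ?_
    have a5 := h2 S hS0 ((SMz p (S * p)).filter (fun d : ℕ => S < (d : ℝ))) (by
      intro n hn
      rw [Finset.mem_filter, mem_SMz (by positivity)] at hn
      exact ⟨hn.1.1, hn.2.le⟩)
    have a6 : S ^ (-(1 / q)) = 1 / p ^ 3 := by
      rw [hS, ← Real.exp_mul, show 3 * q ^ 2 * -(1 / q) = -(3 * q) by field_simp, Real.exp_neg, one_div,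
        ← hpe, ← Real.exp_nat_mul]
      push_cast
      rfl
    rw [a6] at a5
    gcongr
  have hsplit := cnt_split (p := p) (A := A) (B := B) hS0.le hSB
  have hlg0 : (0 : ℝ) ≤ (((Finset.Ioc A B).filter (fun m => (roughPart p m).Prime ∧
        S < ((m / roughPart p m : ℕ) : ℝ))).card : ℝ) := Nat.cast_nonneg _
  have hmid : |Y / l * ∑ s ∈ SMz p S, (s : ℝ)⁻¹ - VV p * Y / l| ≤ Y / l * (K3 * q / p ^ 3) := by
    have g1 : Y / l * ∑ s ∈ SMz p S, (s : ℝ)⁻¹ - VV p * Y / l =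
        -(Y / l * (VV p - ∑ s ∈ SMz p S, (s : ℝ)⁻¹)) := by ring
    have g2 : 0 ≤ VV p - ∑ s ∈ SMz p S, (s : ℝ)⁻¹ := by linarith
    rw [g1, abs_neg, abs_of_nonneg (by positivity)]
    gcongr
  have hY3 : 0 ≤ Y * (q ^ 3 / p ^ 2) := by positivity
  have hq3 : q ≤ q ^ 3 := by
    have : q * 1 ≤ q * q ^ 2 := mul_le_mul_of_nonneg_left hq2 hq0.le
    have e : q ^ 3 = q * q ^ 2 := by ring
    rw [e]
    linarith
  have hp32 : q / (p : ℝ) ^ 3 ≤ q ^ 3 / p ^ 2 := by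
    gcongr
    · linarith
    · norm_num
  have t1 : Y * (C2 * q ^ 2 / p ^ 2) * (K1 * q) = C2 * K1 * (Y * (q ^ 3 / p ^ 2)) := by ring
  have t2 : Y / l * (K3 * q / p ^ 3) ≤ K3 / L * (Y * (q ^ 3 / p ^ 2)) := by
    have g1 : Y / l * (K3 * q / p ^ 3) = K3 / L * (Y * ((q / p ^ 3) * (1 / p))) := by
      rw [hl]; field_simp
    rw [g1]
    have g2 : (q / (p : ℝ) ^ 3) * (1 / p) ≤ q / p ^ 3 := by
      have : 1 / (p : ℝ) ≤ 1 := by rw [div_le_one hp0]; linarith
      exact mul_le_of_le_one_right (by positivity) this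
    gcongr
    linarith
  have t3 : 2 * Y * (K4 * q * (1 / p ^ 3)) ≤ 2 * K4 * (Y * (q ^ 3 / p ^ 2)) := by
    have g1 : 2 * Y * (K4 * q * (1 / p ^ 3)) = 2 * K4 * (Y * (q / p ^ 3)) := by ring
    rw [g1]
    gcongr
  rw [hsplit]
  have e : (C2 * K1 + K3 / L + 2 * K4) * Y * (q ^ 3 / p ^ 2) = C2 * K1 * (Y * (q ^ 3 / p ^ 2)) +
      K3 / L * (Y * (q ^ 3 / p ^ 2)) + 2 * K4 * (Y * (q ^ 3 / p ^ 2)) := by ring
  rw [e]
  rw [abs_le] at hsum hmid ⊢
  constructor
  · linarith [hsum.1, hmid.1]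
  · linarith [hsum.2, hmid.2]

end Pool.Agent.Helper92K9.MP
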