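import Pool.Agent.Helper92K9.MP.Interp
import Pool.Agent.Helper92K9.MP.Bon

set_option autoImplicit false

/-!
# Correlations and gaps almost everywhere
-/

namespace Pool.Agent.Helper92K9.MP

open Finset Filter Topology MeasureTheory
open Pool.Agent.H305R2 (VV VV_tendsto VV_nonneg roughPart)
open Pool.Agent.Y122.PC (Pr mem_Pr mertens)

variable {k : ℕ}

lemma kap_pos {α : ℝ} (hα : 1 < α) : 0 < kap α := div_pos (Real.exp_pos _) (Real.log_pos hα)

/-- correlations almost everywhere in a box -/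
theorem ae_corr {α : ℝ} {G ω : ℕ → ℝ} {D : ℕ} {u v : Fin k → ℝ} (hF : Fam k α G ω D u v) {r : ℕ}
    (hr : 2 * (r + 1) ≤ k) {s t : Fin r → ℝ} (hs : ∀ i, 0 < s i) (hst : ∀ i, s i < t i) :
    ∀ᵐ c ∂(volume.restrict (Bx u v)), Tendsto (fun n : ℕ =>
      (∑ p ∈ Pr 1 n, ∑ q ∈ Tp s t p, ∏ l, gi α G ω c (q l)) / Real.log n) atTop
      (𝓝 (kap α * ∏ i, (kap α * Real.log (t i / s i)))) := by
  filter_upwards [ae_block hF hr hs hst] with c hc
  refine interp (fun p => Finset.sum_nonneg fun q _ => Finset.prod_nonneg fun l _ => gi_nonneg _ _ _ _ _) ?_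
  refine hc.congr fun J => ?_
  congr 1
  refine Finset.sum_congr rfl fun j _ => ?_
  unfold YY
  rw [sum_TT hs hst]

/-- the good parameters for the statistics of the gaps -/
def Good (α : ℝ) (G ω : ℕ → ℝ) (t : ℝ) (N : ℕ) (c : Fin k → ℝ) : Prop :=
  ∀ r : ℕ, r < N → Tendsto (fun n : ℕ =>
    (∑ p ∈ Pr 1 n, gi α G ω c p * ((KK α G ω c 1 t p).descFactorial r : ℝ)) / Real.log n) atTop
    (𝓝 (kap α * (kap α * Real.log t) ^ r))

theorem ae_good {α : ℝ} {G ω : ℕ → ℝ} {D : ℕ} {u v : Fin k → ℝ} (hF : Fam k α G ω D u v) {t : ℝ} (ht : 1 < t)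
    {N : ℕ} (hN : 2 * N ≤ k) : ∀ᵐ c ∂(volume.restrict (Bx u v)), Good α G ω t N c := by
  have h : ∀ r : ℕ, ∀ᵐ c ∂(volume.restrict (Bx u v)), r < N → Tendsto (fun n : ℕ =>
      (∑ p ∈ Pr 1 n, gi α G ω c p * ((KK α G ω c 1 t p).descFactorial r : ℝ)) / Real.log n) atTop
      (𝓝 (kap α * (kap α * Real.log t) ^ r)) := by
    intro r
    by_cases hr : r < N
    · have h1 := ae_corr hF (r := r) (by omega) (s := fun _ => 1) (t := fun _ => t) (fun _ => one_pos) (fun _ => ht)
      filter_upwards [h1] with c hc _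
      simp only [sum_Tp_desc α G ω c ht, div_one, Finset.prod_const, Finset.card_univ, Fintype.card_fin] at hc
      exact hc
    · exact Eventually.of_forall fun c h => absurd h hr
  exact ae_all_iff.2 h

open Classical in
/-- **The statistics of the gaps.** -/
theorem gap {α : ℝ} (hα : 1 < α) {G ω : ℕ → ℝ} {t : ℝ} (ht : 1 < t) {c : Fin k → ℝ} {j m : ℕ}
    (hc : Good α G ω t (j + m + 1) c) : ∀ ε > 0, ∀ᶠ n : ℕ in atTop,
    |(∑ p ∈ Pr 1 n, gi α G ω c p * (if KK α G ω c 1 t p = j then (1 : ℝ) else 0)) /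
        (∑ p ∈ Pr 1 n, gi α G ω c p) -
      Real.exp (-(kap α * Real.log t)) * (kap α * Real.log t) ^ j / (j.factorial : ℝ)| ≤
      2 * (cf j m * (kap α * Real.log t) ^ (j + m)) + ε := by
  intro ε hε
  have hκ := kap_pos hα
  have hlt : 0 < Real.log t := Real.log_pos ht
  set lam := kap α * Real.log t with hlam
  have hlam0 : 0 < lam := by positivity
  set R : ℕ → ℕ → ℝ := fun r n => ∑ p ∈ Pr 1 n, gi α G ω c p * ((KK α G ω c 1 t p).descFactorial r : ℝ) with hR
  set M : ℕ → ℝ := fun n => ∑ p ∈ Pr 1 n, gi α G ω c p with hM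
  have hM0 : ∀ n, R 0 n = M n := fun n => by
    simp only [hR, hM]
    refine Finset.sum_congr rfl fun p _ => ?_
    simp
  have h0 : Tendsto (fun n : ℕ => M n / Real.log n) atTop (𝓝 (kap α)) := by
    have := hc 0 (by omega)
    simp only [pow_zero, mul_one] at this
    refine this.congr fun n => ?_
    rw [← hM0]
  have hlogpos : ∀ᶠ n : ℕ in atTop, 0 < Real.log n := Pool.Agent.H305R2.log_nat_tendsto.eventually_gt_atTop 0
  have hMpos : ∀ᶠ n : ℕ in atTop, 0 < M n := by
    filter_upwards [h0.eventually_const_lt hκ, hlogpos] with n h1 h2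
    exact (div_pos_iff_of_pos_right h2).1 h1
  have hRM : ∀ r, r < j + m + 1 → Tendsto (fun n : ℕ => R r n / M n) atTop (𝓝 (lam ^ r)) := by
    intro r hr
    have h1 := (hc r hr).div h0 hκ.ne'
    rw [mul_div_cancel_left₀ _ hκ.ne'] at h1
    refine h1.congr' ?_
    filter_upwards [hlogpos] with n hn
    simp only [hR]
    rw [Pi.div_apply, div_div_div_cancel_right₀ hn.ne']
  -- the Bonferroni sum
  have hD : Tendsto (fun n : ℕ => ∑ i ∈ Finset.range m, (-1 : ℝ) ^ i * (cf j i * (R (j + i) n / M n))) atTop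
      (𝓝 (∑ i ∈ Finset.range m, (-1 : ℝ) ^ i * (cf j i * lam ^ (j + i)))) := by
    refine tendsto_finset_sum _ fun i hi => ?_
    rw [Finset.mem_range] at hi
    exact ((hRM (j + i) (by omega)).const_mul _).const_mul _
  have hE : Tendsto (fun n : ℕ => cf j m * (R (j + m) n / M n)) atTop (𝓝 (cf j m * lam ^ (j + m))) :=
    (hRM (j + m) (by omega)).const_mul _
  have hD' := (Metric.tendsto_nhds.1 hD) (ε / 2) (by positivity)
  have hE' := hE.eventually_lt_const (show cf j m * lam ^ (j + m) < cf j m * lam ^ (j + m) + ε / 2 by linarith)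
  filter_upwards [hD', hE', hMpos] with n g1 g2 g3
  rw [Real.dist_eq] at g1
  have hpt : ∀ p, |gi α G ω c p * (if KK α G ω c 1 t p = j then (1 : ℝ) else 0) -
      ∑ i ∈ Finset.range m, (-1 : ℝ) ^ i * (cf j i * (gi α G ω c p * ((KK α G ω c 1 t p).descFactorial (j + i) : ℝ)))| ≤
      cf j m * (gi α G ω c p * ((KK α G ω c 1 t p).descFactorial (j + m) : ℝ)) := by
    intro p
    have h1 := bonferroni (KK α G ω c 1 t p) j m
    have e1 : gi α G ω c p * (if KK α G ω c 1 t p = j then (1 : ℝ) else 0) -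
        ∑ i ∈ Finset.range m, (-1 : ℝ) ^ i * (cf j i * (gi α G ω c p * ((KK α G ω c 1 t p).descFactorial (j + i) : ℝ))) =
        gi α G ω c p * ((if KK α G ω c 1 t p = j then (1 : ℝ) else 0) -
          ∑ i ∈ Finset.range m, (-1 : ℝ) ^ i * (cf j i * ((KK α G ω c 1 t p).descFactorial (j + i) : ℝ))) := by
      rw [mul_sub, Finset.mul_sum]
      congr 1
      exact Finset.sum_congr rfl fun i _ => by ring
    rw [e1, abs_mul, abs_of_nonneg (gi_nonneg _ _ _ _ _)]
    calc _ ≤ gi α G ω c p * (cf j m * ((KK α G ω c 1 t p).descFactorial (j + m) : ℝ)) :=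
          mul_le_mul_of_nonneg_left h1 (gi_nonneg _ _ _ _ _)
      _ = _ := by ring
  set S := ∑ p ∈ Pr 1 n, gi α G ω c p * (if KK α G ω c 1 t p = j then (1 : ℝ) else 0) with hS
  have hsum : |S - ∑ i ∈ Finset.range m, (-1 : ℝ) ^ i * (cf j i * R (j + i) n)| ≤ cf j m * R (j + m) n := by
    have e1 : ∑ i ∈ Finset.range m, (-1 : ℝ) ^ i * (cf j i * R (j + i) n) =
        ∑ p ∈ Pr 1 n, ∑ i ∈ Finset.range m, (-1 : ℝ) ^ i *
          (cf j i * (gi α G ω c p * ((KK α G ω c 1 t p).descFactorial (j + i) : ℝ))) := by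
      rw [Finset.sum_comm]
      refine Finset.sum_congr rfl fun i _ => ?_
      simp only [hR, Finset.mul_sum]
    rw [hS, e1, ← Finset.sum_sub_distrib]
    refine (Finset.abs_sum_le_sum_abs _ _).trans ((Finset.sum_le_sum fun p _ => hpt p).trans (le_of_eq ?_))
    simp only [hR, Finset.mul_sum]
  have hquot : |S / M n - ∑ i ∈ Finset.range m, (-1 : ℝ) ^ i * (cf j i * (R (j + i) n / M n))| ≤
      cf j m * (R (j + m) n / M n) := by
    have e1 : ∑ i ∈ Finset.range m, (-1 : ℝ) ^ i * (cf j i * (R (j + i) n / M n)) =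
        (∑ i ∈ Finset.range m, (-1 : ℝ) ^ i * (cf j i * R (j + i) n)) / M n := by
      rw [Finset.sum_div]
      exact Finset.sum_congr rfl fun i _ => by ring
    rw [e1, ← sub_div, abs_div, abs_of_pos g3, div_le_iff₀ g3]
    have e2 : cf j m * (R (j + m) n / M n) * M n = cf j m * R (j + m) n := by field_simp
    rw [e2]
    exact hsum
  have hlim := pois_bound j m hlam0.le
  have hfin : |S / M n - Real.exp (-lam) * lam ^ j / (j.factorial : ℝ)| ≤
      cf j m * (R (j + m) n / M n) + ε / 2 + cf j m * lam ^ (j + m) := by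
    have e1 : S / M n - Real.exp (-lam) * lam ^ j / (j.factorial : ℝ) =
      (S / M n - ∑ i ∈ Finset.range m, (-1 : ℝ) ^ i * (cf j i * (R (j + i) n / M n))) +
      (∑ i ∈ Finset.range m, (-1 : ℝ) ^ i * (cf j i * (R (j + i) n / M n)) -
        ∑ i ∈ Finset.range m, (-1 : ℝ) ^ i * (cf j i * lam ^ (j + i))) +
      (∑ i ∈ Finset.range m, (-1 : ℝ) ^ i * (cf j i * lam ^ (j + i)) -
        Real.exp (-lam) * lam ^ j / (j.factorial : ℝ)) := by ring
    rw [e1]
    refine (abs_add_le _ _).trans ?_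
    refine add_le_add ((abs_add_le _ _).trans (add_le_add hquot g1.le)) hlim
  refine hfin.trans ?_
  linarith

end Pool.Agent.Helper92K9.MP
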