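import Pool.Agent.Helper92K9.MP.Cnt2

set_option autoImplicit false

/-!
# The window means of the indicator of an exponent
-/

namespace Pool.Agent.Helper92K9.MP

open Finset Filter Topology MeasureTheory
open Pool.Agent.H305R2 (VV VV_tendsto VV_nonneg roughPart)

/-- indicator of the numbers with prime `p`-rough part -/
noncomputable def chi (p n : ℕ) : ℝ := if (roughPart p n).Prime then 1 else 0

lemma chi_nonneg (p n : ℕ) : 0 ≤ chi p n := by unfold chi; split_ifs <;> norm_num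
lemma chi_le_one (p n : ℕ) : chi p n ≤ 1 := by unfold chi; split_ifs <;> norm_num

/-- the indicator as a function of a real number: `t` stands for the largest integer below `t` -/
noncomputable def phi (p : ℕ) (t : ℝ) : ℝ := chi p (⌈t⌉₊ - 1)

lemma phi_nonneg (p : ℕ) (t : ℝ) : 0 ≤ phi p t := chi_nonneg _ _
lemma phi_le_one (p : ℕ) (t : ℝ) : phi p t ≤ 1 := chi_le_one _ _

lemma measurable_phi (p : ℕ) : Measurable (phi p) :=
  (measurable_from_top (f := fun n : ℕ => chi p (n - 1))).comp Nat.measurable_ceil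

lemma phi_ii (p : ℕ) (a b : ℝ) : IntervalIntegrable (phi p) volume a b := by
  refine (intervalIntegrable_const (c := (1 : ℝ))).mono_fun (measurable_phi p).aestronglyMeasurable ?_
  refine Eventually.of_forall fun x => ?_
  simp only [Real.norm_eq_abs, abs_of_nonneg (phi_nonneg p x), abs_one]
  exact phi_le_one p x

lemma int_phi_unit (p n : ℕ) : ∫ t in (n : ℝ)..((n + 1 : ℕ) : ℝ), phi p t = chi p n := by
  have h : ∫ t in (n : ℝ)..((n + 1 : ℕ) : ℝ), phi p t = ∫ _t in (n : ℝ)..((n + 1 : ℕ) : ℝ), chi p n := by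
    rw [intervalIntegral.integral_of_le (by push_cast; linarith),
      intervalIntegral.integral_of_le (by push_cast; linarith)]
    refine setIntegral_congr_fun measurableSet_Ioc fun t ht => ?_
    unfold phi
    have : ⌈t⌉₊ = n + 1 := by
      rw [Nat.ceil_eq_iff (by omega)]
      exact ⟨by simpa using ht.1, ht.2⟩
    rw [this]
    rfl
  rw [h, intervalIntegral.integral_const]
  simp

lemma int_phi_nat (p : ℕ) {A B : ℕ} (h : A ≤ B) :
    ∫ t in (A : ℝ)..(B : ℝ), phi p t = ∑ n ∈ Finset.Ico A B, chi p n := by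
  have h1 := intervalIntegral.sum_integral_adjacent_intervals_Ico (f := phi p) (μ := volume)
    (a := fun n : ℕ => (n : ℝ)) h (fun n _ => phi_ii p _ _)
  rw [← h1]
  exact Finset.sum_congr rfl fun n _ => int_phi_unit p n

lemma cnt_eq_sum (p A B : ℕ) : cnt p A B = ∑ n ∈ Finset.Ioc A B, chi p n := by
  unfold cnt chi
  rw [Finset.card_filter]
  push_cast
  rfl

lemma sum_Ico_Ioc (p : ℕ) {A B : ℕ} (h : A ≤ B) :
    ∑ n ∈ Finset.Ico A B, chi p n + chi p B = ∑ n ∈ Finset.Ioc A B, chi p n + chi p A := by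
  induction B, h using Nat.le_induction with
  | base => simp
  | succ B hB ih =>
    rw [Finset.sum_Ico_succ_top hB, Finset.sum_Ioc_succ_top hB]
    linarith

lemma int_phi_cnt (p : ℕ) {A B : ℕ} (h : A ≤ B) :
    |(∫ t in (A : ℝ)..(B : ℝ), phi p t) - cnt p A B| ≤ 1 := by
  rw [int_phi_nat p h, cnt_eq_sum]
  have h1 := sum_Ico_Ioc p h
  have h2 := chi_nonneg p A
  have h3 := chi_nonneg p B
  have h4 := chi_le_one p A
  have h5 := chi_le_one p B
  rw [abs_le]
  constructor <;> linarith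

lemma int_phi_small (p : ℕ) {a b : ℝ} (hab : a ≤ b) (h1 : b ≤ a + 1) :
    |∫ t in a..b, phi p t| ≤ 1 := by
  have h := intervalIntegral.norm_integral_le_of_norm_le_const (a := a) (b := b)
    (f := phi p) (C := 1) (fun x _ => by
      rw [Real.norm_of_nonneg (phi_nonneg _ _)]
      exact phi_le_one p x)
  rw [Real.norm_eq_abs, abs_of_nonneg (by linarith : 0 ≤ b - a)] at h
  linarith

/-- the integral over a real interval and the counting function -/
lemma int_phi_real (p : ℕ) {x y : ℝ} (hx : 0 ≤ x) (hxy : x ≤ y) :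
    |(∫ t in x..y, phi p t) - cnt p ⌊x⌋₊ ⌊y⌋₊| ≤ 3 := by
  have hy : 0 ≤ y := hx.trans hxy
  have h1 := int_phi_cnt p (Nat.floor_le_floor hxy)
  have h2 := int_phi_small p (Nat.floor_le hx) (Nat.lt_floor_add_one x).le
  have h3 := int_phi_small p (Nat.floor_le hy) (Nat.lt_floor_add_one y).le
  have e1 := intervalIntegral.integral_add_adjacent_intervals (phi_ii p (⌊x⌋₊ : ℝ) x) (phi_ii p x y)
  have e2 := intervalIntegral.integral_add_adjacent_intervals (phi_ii p (⌊x⌋₊ : ℝ) (⌊y⌋₊ : ℝ))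
    (phi_ii p (⌊y⌋₊ : ℝ) y)
  rw [abs_le] at *
  constructor <;> linarith [h1.1, h1.2, h2.1, h2.2, h3.1, h3.2]

/-- the window mean of the indicator as a function of the amplitude -/
noncomputable def Av (α : ℝ) (p : ℕ) (h a : ℝ) : ℝ := h⁻¹ * ∫ w in (0 : ℝ)..h, phi p ((a + w) * α ^ p)

theorem Av_asymp {α : ℝ} (hα : 1 < α) (K D : ℕ) : ∃ C : ℝ, 0 < C ∧ ∀ᶠ p : ℕ in atTop,
    ∀ a h : ℝ, ((p : ℝ) ^ D)⁻¹ ≤ a → a ≤ (p : ℝ) ^ D → ((p : ℝ) ^ K)⁻¹ ≤ h → h ≤ 1 →
    |Av α p h a - VV p / (Real.log α * p)| ≤ C * (Real.log p ^ 3 / p ^ 2) := by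
  have hL : 0 < Real.log α := Real.log_pos hα
  set L := Real.log α with hLdef
  obtain ⟨C, hC, hev⟩ := cnt_asymp hL (D + K + 1) (D + 1)
  set K1 := Real.exp Real.eulerMascheroniConstant + 1 with hK1
  have hV : ∀ᶠ p : ℕ in atTop, VV p / Real.log p < K1 :=
    VV_tendsto.eventually_lt_const (by rw [hK1]; linarith)
  refine ⟨2 * C + K1 / L + 3, by positivity, ?_⟩
  filter_upwards [hev, hV, ev_pow ((K + 3 : ℕ) / L) 1, ev_pow ((D + 2 : ℕ) / L) 1, ev_log 1, ev_log (1 / L),
    eventually_ge_atTop 4] with p h1 h2 h3 h3' h4 h5 hp4 a h ha0 ha1 hh0 hh1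
  have hp4' : (4 : ℝ) ≤ p := by exact_mod_cast hp4
  have hp0 : (0 : ℝ) < p := by linarith
  set q := Real.log p with hq
  have hq0 : 0 < q := by linarith
  have hpe : Real.exp q = p := Real.exp_log hp0
  have hα0 : 0 < α := by linarith
  have hαp : α ^ p = Real.exp (L * p) := by
    rw [hLdef, ← Real.rpow_natCast, Real.rpow_def_of_pos hα0]
  have hpD : 0 < (p : ℝ) ^ D := by positivity
  have hpK : 0 < (p : ℝ) ^ K := by positivity
  have ha : 0 < a := lt_of_lt_of_le (by positivity) ha0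
  have hh : 0 < h := lt_of_lt_of_le (by positivity) hh0
  set X := Real.exp (L * p) with hX
  have hX0 : 0 < X := Real.exp_pos _
  -- `X` is large
  have hpow : ∀ n : ℕ, (p : ℝ) ^ n = Real.exp (n * q) := fun n => by
    rw [Real.exp_nat_mul, hpe]
  have hXK : (p : ℝ) ^ (K + 3) ≤ X := by
    rw [hpow, hX]
    refine Real.exp_le_exp.2 ?_
    have : ((K + 3 : ℕ) : ℝ) / L * q ^ 1 * L ≤ p * L := by gcongr
    have e : ((K + 3 : ℕ) : ℝ) / L * q ^ 1 * L = ((K + 3 : ℕ) : ℝ) * q := by field_simp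
    rw [e] at this
    linarith
  have hXD : (p : ℝ) ^ (D + 2) ≤ X := by
    rw [hpow, hX]
    refine Real.exp_le_exp.2 ?_
    have : ((D + 2 : ℕ) : ℝ) / L * q ^ 1 * L ≤ p * L := by gcongr
    have e : ((D + 2 : ℕ) : ℝ) / L * q ^ 1 * L = ((D + 2 : ℕ) : ℝ) * q := by field_simp
    rw [e] at this
    linarith
  set x := a * X with hx
  set y := (a + h) * X with hy
  have hx0 : 0 < x := by positivity
  have hxy : x ≤ y := by
    rw [hx, hy]; gcongr; linarith
  have hyx : y - x = h * X := by rw [hx, hy]; ring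
  -- `h X ≥ p ^ 3`
  have hhX : (p : ℝ) ^ 3 ≤ h * X := by
    calc (p : ℝ) ^ 3 = ((p : ℝ) ^ K)⁻¹ * (p : ℝ) ^ (K + 3) := by
          rw [pow_add]; field_simp
      _ ≤ h * X := by gcongr
  have haX : (p : ℝ) ^ 2 ≤ x := by
    calc (p : ℝ) ^ 2 = ((p : ℝ) ^ D)⁻¹ * (p : ℝ) ^ (D + 2) := by
          rw [pow_add]; field_simp
      _ ≤ a * X := by gcongr
  have hp2 : (16 : ℝ) ≤ (p : ℝ) ^ 2 := by nlinarith
  have hp3 : (64 : ℝ) ≤ (p : ℝ) ^ 3 := by
    have : (p : ℝ) ^ 3 = p * p ^ 2 := by ring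
    nlinarith
  set A := ⌊x⌋₊ with hA
  set B := ⌊y⌋₊ with hB
  have hAx : (A : ℝ) ≤ x := Nat.floor_le hx0.le
  have hxA : x < A + 1 := Nat.lt_floor_add_one x
  have hBy : (B : ℝ) ≤ y := Nat.floor_le (hx0.le.trans hxy)
  have hyB : y < B + 1 := Nat.lt_floor_add_one y
  have hBA1 : (B : ℝ) - A ≤ h * X + 1 := by linarith
  have hBA2 : h * X - 1 ≤ (B : ℝ) - A := by linarith
  have hBA3 : h * X / 2 ≤ (B : ℝ) - A := by linarith
  have hAB : A < B := by
    have : (A : ℝ) < B := by linarith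
    exact_mod_cast this
  have hlA : L * p - ((D + 1 : ℕ) : ℝ) * q ≤ Real.log A := by
    rw [Real.le_log_iff_exp_le (by linarith)]
    have e1 : Real.exp (L * p - ((D + 1 : ℕ) : ℝ) * q) = X * (((p : ℝ) ^ D)⁻¹ * (p : ℝ)⁻¹) := by
      rw [Real.exp_sub, ← hpow, hX, pow_succ]
      field_simp
    rw [e1]
    have e2 : (p : ℝ)⁻¹ ≤ 1 / 4 := by
      rw [← one_div]
      exact one_div_le_one_div_of_le (by norm_num) hp4'
    have e3 : X * (((p : ℝ) ^ D)⁻¹ * (p : ℝ)⁻¹) ≤ X * (a * (1 / 4)) := by gcongr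
    linarith
  have hlB : Real.log B ≤ L * p + ((D + 1 : ℕ) : ℝ) * q := by
    rw [Real.log_le_iff_le_exp (by linarith)]
    have e1 : Real.exp (L * p + ((D + 1 : ℕ) : ℝ) * q) = X * ((p : ℝ) ^ D * p) := by
      rw [Real.exp_add, ← hpow, hX, pow_succ]
    rw [e1]
    refine hBy.trans ?_
    rw [hy, mul_comm]
    refine mul_le_mul_of_nonneg_left ?_ hX0.le
    have : (1 : ℝ) ≤ (p : ℝ) ^ D := one_le_pow₀ (by linarith)
    nlinarith
  have hAK : (A : ℝ) ≤ (p : ℝ) ^ (D + K + 1) * ((B : ℝ) - A) := by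
    calc (A : ℝ) ≤ a * X := hAx
      _ ≤ (p : ℝ) ^ D * X := by gcongr
      _ = (p : ℝ) ^ D * (p : ℝ) ^ K * (((p : ℝ) ^ K)⁻¹ * X) := by field_simp
      _ ≤ (p : ℝ) ^ D * (p : ℝ) ^ K * (h * X) := by gcongr
      _ ≤ (p : ℝ) ^ D * (p : ℝ) ^ K * (p * ((B : ℝ) - A)) := by
          refine mul_le_mul_of_nonneg_left ?_ (by positivity)
          have : 0 ≤ h * X := by positivity
          nlinarith
      _ = _ := by ring
  have hmain := h1 A B hAB hlA hlB hAK
  have hreal := int_phi_real p hx0.le hxy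
  rw [← hA, ← hB] at hreal
  -- the integral
  have hint : ∫ w in (0 : ℝ)..h, phi p ((a + w) * α ^ p) = X⁻¹ * ∫ t in x..y, phi p t := by
    have e := intervalIntegral.integral_comp_mul_add (a := 0) (b := h) (phi p) hX0.ne' x
    have e1 : (fun w : ℝ => phi p ((a + w) * α ^ p)) = fun w => phi p (X * w + x) := by
      funext w
      rw [hαp, hx]
      congr 1
      ring
    rw [e1, e, smul_eq_mul]
    have e2 : X * 0 + x = x := by ring
    have e3 : X * h + x = y := by rw [hx, hy]; ring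
    rw [e2, e3]
  unfold Av
  rw [hint]
  set I := ∫ t in x..y, phi p t with hI
  have hVq : VV p ≤ K1 * q := by
    rw [div_lt_iff₀ hq0] at h2
    exact h2.le
  have hV0 := VV_nonneg p
  set M := VV p / (L * p) with hM
  have hM0 : 0 ≤ M := by positivity
  have hMe : VV p * ((B : ℝ) - A) / (L * p) = M * ((B : ℝ) - A) := by rw [hM]; ring
  rw [hMe] at hmain
  set r := q ^ 3 / (p : ℝ) ^ 2 with hr
  have hr0 : 0 ≤ r := by positivity
  -- total error
  have hM1 : M ≤ K1 / L * 1 := by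
    rw [hM, mul_one, div_le_div_iff₀ (by positivity) hL]
    have hqp : q ≤ p := by
      have := Real.log_le_sub_one_of_pos hp0
      linarith
    calc VV p * L ≤ K1 * q * L := by gcongr
      _ ≤ K1 * p * L := by gcongr
      _ = K1 * (L * p) := by ring
  have htot : |I - M * (h * X)| ≤ 3 + C * (h * X + 1) * r + K1 / L := by
    have e1 : C * ((B : ℝ) - A) * r ≤ C * (h * X + 1) * r := by gcongr
    have e2 : |M * ((B : ℝ) - A) - M * (h * X)| ≤ K1 / L := by
      rw [← mul_sub, abs_mul, abs_of_nonneg hM0]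
      have : |(B : ℝ) - A - h * X| ≤ 1 := by
        rw [abs_le]; constructor <;> linarith
      calc M * |(B : ℝ) - A - h * X| ≤ M * 1 := by gcongr
        _ ≤ K1 / L := by linarith
    rw [abs_le] at *
    constructor
    · linarith [hreal.1, hmain.1, e2.1]
    · linarith [hreal.2, hmain.2, e2.2]
  have hhX0 : 0 < h * X := by positivity
  have e1 : h⁻¹ * (X⁻¹ * I) - M = (I - M * (h * X)) / (h * X) := by
    field_simp
  rw [e1, abs_div, abs_of_pos hhX0, div_le_iff₀ hhX0]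
  refine htot.trans ?_
  -- `1 ≤ h X r`
  have hone : 1 ≤ h * X * r := by
    have e2 : (p : ℝ) ^ 3 * r ≤ h * X * r := by gcongr
    have e3 : (p : ℝ) ^ 3 * r = p * q ^ 3 := by rw [hr]; field_simp
    have e4 : 1 ≤ q ^ 3 := one_le_pow₀ h4
    nlinarith
  have hone' : (1 : ℝ) ≤ h * X := by linarith
  have g1 : C * (h * X + 1) * r ≤ 2 * C * (h * X * r) := by
    have : C * (h * X + 1) * r ≤ C * (h * X + h * X) * r := by gcongr
    linarith
  have g2 : K1 / L ≤ K1 / L * (h * X * r) := le_mul_of_one_le_right (by positivity) hone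
  have g3 : (2 * C + K1 / L + 3) * r * (h * X) = 2 * C * (h * X * r) + K1 / L * (h * X * r) +
      3 * (h * X * r) := by ring
  rw [g3]
  linarith

end Pool.Agent.Helper92K9.MP
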