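import Mathlib

set_option autoImplicit false

/-!
# Sums over injective tuples
-/

namespace Pool.Agent.Helper92K9.MP

open Finset

/-- tuples with two equal entries -/
lemma sum_eq_pair {n : ℕ} (W : Fin n → Finset ℕ) {f : ℕ → ℝ} (hf : ∀ p, 0 ≤ f p) {ε : ℝ}
    {i j : Fin n} (hij : i ≠ j) (hε0 : 0 ≤ ε) (hε : ∀ p ∈ W i, f p ≤ ε) :
    ∑ q ∈ (Fintype.piFinset W).filter (fun q => q i = q j), ∏ l, f (q l) ≤
      ε * ∏ l ∈ Finset.univ.erase i, ∑ p ∈ W l, f p := by
  classical
  -- replace the entry `i` by `0`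
  set F : Fin n → ℕ → ℝ := fun l p => if l = i then 1 else f p with hF
  set W' : Fin n → Finset ℕ := fun l => if l = i then {0} else W l with hW'
  have h1 : ∀ q ∈ (Fintype.piFinset W).filter (fun q => q i = q j), ∏ l, f (q l) ≤
      ε * ∏ l, F l (Function.update q i 0 l) := by
    intro q hq
    rw [Finset.mem_filter, Fintype.mem_piFinset] at hq
    rw [← Finset.mul_prod_erase Finset.univ (fun l => f (q l)) (Finset.mem_univ i),
      ← Finset.mul_prod_erase Finset.univ (fun l => F l (Function.update q i 0 l)) (Finset.mem_univ i)]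
    have e1 : F i (Function.update q i 0 i) = 1 := by simp [hF]
    have e2 : ∏ l ∈ Finset.univ.erase i, F l (Function.update q i 0 l) =
        ∏ l ∈ Finset.univ.erase i, f (q l) := by
      refine Finset.prod_congr rfl fun l hl => ?_
      have : l ≠ i := Finset.ne_of_mem_erase hl
      simp [hF, this]
    rw [e1, one_mul, e2]
    exact mul_le_mul_of_nonneg_right (hε _ (hq.1 i)) (Finset.prod_nonneg fun l _ => hf _)
  refine (Finset.sum_le_sum h1).trans ?_
  rw [← Finset.mul_sum]
  refine mul_le_mul_of_nonneg_left ?_ hε0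
  have hinj : Set.InjOn (fun q : Fin n → ℕ => Function.update q i 0)
      ((Fintype.piFinset W).filter (fun q => q i = q j) : Finset (Fin n → ℕ)) := by
    intro a ha b hb hab
    simp only [Finset.coe_filter, Set.mem_ofPred_eq] at ha hb
    have hne : ∀ l, l ≠ i → a l = b l := fun l hl => by
      have := congrFun hab l
      simpa [hl] using this
    funext l
    by_cases hl : l = i
    · rw [hl, ha.2, hb.2]
      exact hne j hij.symm
    · exact hne l hl
  have h2 : ∑ q ∈ (Fintype.piFinset W).filter (fun q => q i = q j), ∏ l, F l (Function.update q i 0 l) =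
      ∑ q' ∈ ((Fintype.piFinset W).filter (fun q => q i = q j)).image (fun q => Function.update q i 0),
        ∏ l, F l (q' l) := by
    rw [Finset.sum_image hinj]
  rw [h2]
  have hsub : ((Fintype.piFinset W).filter (fun q => q i = q j)).image (fun q => Function.update q i 0) ⊆
      Fintype.piFinset W' := by
    intro q' hq'
    rw [Finset.mem_image] at hq'
    obtain ⟨q, hq, rfl⟩ := hq'
    rw [Finset.mem_filter, Fintype.mem_piFinset] at hq
    rw [Fintype.mem_piFinset]
    intro l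
    by_cases hl : l = i
    · subst hl; simp [hW']
    · simp only [hW', if_neg hl, Function.update_of_ne hl]
      exact hq.1 l
  have h3 : ∀ q' : Fin n → ℕ, 0 ≤ ∏ l, F l (q' l) := fun q' => Finset.prod_nonneg fun l _ => by
    simp only [hF]
    split_ifs
    · exact zero_le_one
    · exact hf _
  refine (Finset.sum_le_sum_of_subset_of_nonneg hsub fun q' _ _ => h3 q').trans ?_
  rw [← Finset.prod_univ_sum, ← Finset.mul_prod_erase Finset.univ _ (Finset.mem_univ i)]
  have e1 : ∑ p ∈ W' i, F i p = 1 := by simp [hW', hF]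
  rw [e1, one_mul]
  refine le_of_eq (Finset.prod_congr rfl fun l hl => ?_)
  have : l ≠ i := Finset.ne_of_mem_erase hl
  simp [hW', hF, this]

/-- tuples that are not injective -/
lemma sum_noninj {n : ℕ} (W : Fin (n + 1) → Finset ℕ) {f : ℕ → ℝ} (hf : ∀ p, 0 ≤ f p) {ε B : ℝ}
    (hε0 : 0 ≤ ε) (hB1 : 1 ≤ B) (hε : ∀ l, l ≠ 0 → ∀ p ∈ W l, f p ≤ ε) (hB : ∀ l, l ≠ 0 → ∑ p ∈ W l, f p ≤ B) :
    ∑ q ∈ (Fintype.piFinset W).filter (fun q => ¬ Function.Injective q), ∏ l, f (q l) ≤
      (n + 1) ^ 2 * (ε * (B ^ (n + 1) * ∑ p ∈ W 0, f p)) := by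
  classical
  have hg : ∀ q : Fin (n + 1) → ℕ, 0 ≤ ∏ l, f (q l) := fun q => Finset.prod_nonneg fun l _ => hf _
  set PP : Finset (Fin (n + 1) × Fin (n + 1)) := Finset.univ.filter (fun z => z.1 ≠ 0 ∧ z.1 ≠ z.2) with hPP
  have h0 : 0 ≤ ∑ p ∈ W 0, f p := Finset.sum_nonneg fun p _ => hf p
  have h1 : ∑ q ∈ (Fintype.piFinset W).filter (fun q => ¬ Function.Injective q), ∏ l, f (q l) ≤
      ∑ z ∈ PP, ∑ q ∈ (Fintype.piFinset W).filter (fun q => q z.1 = q z.2), ∏ l, f (q l) := by
    have e1 : ∀ z ∈ PP, ∑ q ∈ (Fintype.piFinset W).filter (fun q => q z.1 = q z.2), ∏ l, f (q l) =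
        ∑ q ∈ Fintype.piFinset W, if q z.1 = q z.2 then ∏ l, f (q l) else 0 := fun z _ => by
      rw [Finset.sum_filter]
    rw [Finset.sum_congr rfl e1, Finset.sum_comm, Finset.sum_filter]
    refine Finset.sum_le_sum fun q _ => ?_
    have hnn : ∀ z ∈ PP, (0 : ℝ) ≤ if q z.1 = q z.2 then ∏ l, f (q l) else 0 := fun z _ => by
      split_ifs
      · exact hg q
      · exact le_rfl
    by_cases hq0 : Function.Injective q
    · rw [if_neg (not_not.2 hq0)]
      exact Finset.sum_nonneg hnn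
    · rw [if_pos hq0]
      have hq := hq0
      rw [Function.Injective] at hq
      push Not at hq
      obtain ⟨a, b, hab, hne⟩ := hq
      by_cases ha : a = 0
      · have hb : b ≠ 0 := fun h => hne (by rw [ha, h])
        have hz : (b, a) ∈ PP := by
          rw [hPP, Finset.mem_filter]
          exact ⟨Finset.mem_univ _, hb, hne.symm⟩
        have h2 := Finset.single_le_sum hnn hz
        rw [if_pos hab.symm] at h2
        exact h2
      · have hz : (a, b) ∈ PP := by
          rw [hPP, Finset.mem_filter]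
          exact ⟨Finset.mem_univ _, ha, hne⟩
        have h2 := Finset.single_le_sum hnn hz
        rw [if_pos hab] at h2
        exact h2
  refine h1.trans ?_
  have h2 : ∀ z ∈ PP, ∑ q ∈ (Fintype.piFinset W).filter (fun q => q z.1 = q z.2), ∏ l, f (q l) ≤
      ε * (B ^ (n + 1) * ∑ p ∈ W 0, f p) := by
    intro z hz
    rw [hPP, Finset.mem_filter] at hz
    refine (sum_eq_pair W hf hz.2.2 hε0 (hε z.1 hz.2.1)).trans ?_
    refine mul_le_mul_of_nonneg_left ?_ hε0
    rw [← Finset.mul_prod_erase _ _ (Finset.mem_erase.2 ⟨hz.2.1.symm, Finset.mem_univ 0⟩), mul_comm]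
    refine mul_le_mul_of_nonneg_right ?_ h0
    calc ∏ l ∈ (Finset.univ.erase z.1).erase 0, ∑ p ∈ W l, f p ≤ ∏ l ∈ (Finset.univ.erase z.1).erase 0, B :=
          Finset.prod_le_prod (fun l _ => Finset.sum_nonneg fun p _ => hf p)
            fun l hl => hB l (Finset.ne_of_mem_erase hl)
      _ = B ^ ((Finset.univ.erase z.1).erase 0).card := by rw [Finset.prod_const]
      _ ≤ B ^ (n + 1) := by
          refine pow_le_pow_right₀ hB1 ?_
          refine (Finset.card_le_univ _).trans ?_
          rw [Fintype.card_fin]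
  refine (Finset.sum_le_sum h2).trans ?_
  rw [Finset.sum_const, nsmul_eq_mul]
  refine mul_le_mul_of_nonneg_right ?_ (by positivity)
  have h3 : PP.card ≤ (n + 1) ^ 2 := by
    refine (Finset.card_le_univ _).trans ?_
    rw [Fintype.card_prod, Fintype.card_fin, pow_two]
  exact_mod_cast h3

/-- injective tuples -/
lemma sum_inj {n : ℕ} (W : Fin (n + 1) → Finset ℕ) {f : ℕ → ℝ} (hf : ∀ p, 0 ≤ f p) {ε B : ℝ}
    (hε0 : 0 ≤ ε) (hB1 : 1 ≤ B) (hε : ∀ l, l ≠ 0 → ∀ p ∈ W l, f p ≤ ε) (hB : ∀ l, l ≠ 0 → ∑ p ∈ W l, f p ≤ B) :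
    |∑ q ∈ (Fintype.piFinset W).filter (fun q => Function.Injective q), ∏ l, f (q l) -
      ∏ l, ∑ p ∈ W l, f p| ≤ (n + 1) ^ 2 * (ε * (B ^ (n + 1) * ∑ p ∈ W 0, f p)) := by
  classical
  rw [Finset.prod_univ_sum,
    ← Finset.sum_filter_add_sum_filter_not (Fintype.piFinset W) (fun q => Function.Injective q)]
  have h1 := sum_noninj W hf hε0 hB1 hε hB
  have h2 : 0 ≤ ∑ q ∈ (Fintype.piFinset W).filter (fun q => ¬ Function.Injective q), ∏ l, f (q l) :=
    Finset.sum_nonneg fun q _ => Finset.prod_nonneg fun l _ => hf _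
  rw [abs_le]
  constructor <;> linarith

/-- the number of injective tuples in a finite set -/
lemma card_inj (E : Finset ℕ) (n : ℕ) :
    ((Fintype.piFinset fun _ : Fin n => E).filter (fun q => Function.Injective q)).card =
      E.card.descFactorial n := by
  classical
  have h1 : E.card.descFactorial n = Fintype.card (Fin n ↪ E) := by
    rw [Fintype.card_embedding_eq, Fintype.card_fin, Fintype.card_coe]
  rw [h1, ← Finset.card_univ]
  symm
  refine Finset.card_bij (fun e _ => fun i => (e i : ℕ)) ?_ ?_ ?_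
  · intro e _
    rw [Finset.mem_filter, Fintype.mem_piFinset]
    exact ⟨fun i => (e i).2, fun a b h => e.injective (Subtype.ext h)⟩
  · intro e _ e' _ h
    ext i
    exact congrFun h i
  · intro q hq
    rw [Finset.mem_filter, Fintype.mem_piFinset] at hq
    exact ⟨⟨fun i => ⟨q i, hq.1 i⟩, fun a b h => hq.2 (congrArg Subtype.val h)⟩, Finset.mem_univ _, rfl⟩

/-- powers and falling factorials -/
lemma pow_le_desc (K n : ℕ) : (K : ℝ) ^ n ≤ (2 * n : ℝ) ^ n + 2 ^ n * (K.descFactorial n : ℝ) := by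
  rcases Nat.lt_or_ge K (2 * n) with h | h
  · have h1 : (K : ℝ) ^ n ≤ (2 * n : ℝ) ^ n := by
      refine pow_le_pow_left₀ (Nat.cast_nonneg _) ?_ n
      exact_mod_cast h.le
    have h2 : (0 : ℝ) ≤ 2 ^ n * (K.descFactorial n : ℝ) := by positivity
    linarith
  · have h1 : K ^ n ≤ 2 ^ n * K.descFactorial n := by
      have h2 : (K + 1 - n) ^ n ≤ K.descFactorial n := Nat.pow_sub_le_descFactorial K n
      calc K ^ n ≤ (2 * (K + 1 - n)) ^ n := Nat.pow_le_pow_left (by omega) n
        _ = 2 ^ n * (K + 1 - n) ^ n := by rw [mul_pow]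
        _ ≤ _ := Nat.mul_le_mul_left _ h2
    have h3 : (K : ℝ) ^ n ≤ 2 ^ n * (K.descFactorial n : ℝ) := by exact_mod_cast h1
    have h4 : (0 : ℝ) ≤ (2 * n : ℝ) ^ n := by positivity
    linarith

end Pool.Agent.Helper92K9.MP
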