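import Mathlib

set_option autoImplicit false

/-!
# Polynomials with prescribed values: bounds for the coefficients
-/

namespace Pool.Agent.Helper92K9.MP

open Finset Polynomial

/-- the Lagrange basis -/
noncomputable def ell {r : ℕ} (x : Fin r → ℝ) (i : Fin r) : Polynomial ℝ :=
  ∏ j ∈ Finset.univ.erase i, (C ((x i - x j)⁻¹) * (X - C (x j)))

lemma ell_natDegree {r : ℕ} (x : Fin r → ℝ) (i : Fin r) : (ell x i).natDegree < r := by
  have h1 : (ell x i).natDegree ≤ ∑ j ∈ Finset.univ.erase i, 1 := by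
    refine (natDegree_prod_le _ _).trans (Finset.sum_le_sum fun j _ => ?_)
    refine (natDegree_C_mul_le _ _).trans ?_
    rw [natDegree_X_sub_C]
  have h2 : ∑ j ∈ Finset.univ.erase i, 1 = r - 1 := by
    simp [Finset.card_erase_of_mem]
  have h3 : 0 < r := i.pos
  omega

lemma ell_self {r : ℕ} {x : Fin r → ℝ} (hx : Function.Injective x) (i : Fin r) :
    (ell x i).eval (x i) = 1 := by
  unfold ell
  rw [eval_prod]
  refine Finset.prod_eq_one fun j hj => ?_
  have hne : x i - x j ≠ 0 := sub_ne_zero.2 fun h => (Finset.ne_of_mem_erase hj) (hx h).symm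
  simp [hne]

lemma ell_ne {r : ℕ} (x : Fin r → ℝ) {i l : Fin r} (h : l ≠ i) :
    (ell x i).eval (x l) = 0 := by
  unfold ell
  rw [eval_prod]
  refine Finset.prod_eq_zero (Finset.mem_erase.2 ⟨h, Finset.mem_univ l⟩) ?_
  simp

lemma coeff_bound {ι : Type} [DecidableEq ι] (s : Finset ι) (c a : ι → ℝ) (n : ℕ) :
    |(∏ j ∈ s, (C (c j) * (X - C (a j)))).coeff n| ≤ ∏ j ∈ s, (|c j| * (1 + |a j|)) := by
  induction s using Finset.induction_on generalizing n with
  | empty =>
    simp only [Finset.prod_empty, coeff_one]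
    split_ifs <;> simp
  | insert j s hj ih =>
    rw [Finset.prod_insert hj, Finset.prod_insert hj]
    set P := ∏ j ∈ s, (C (c j) * (X - C (a j))) with hP
    set B := ∏ j ∈ s, (|c j| * (1 + |a j|)) with hB
    have e : C (c j) * (X - C (a j)) * P = C (c j) * (X * P - C (a j) * P) := by ring
    rw [e, coeff_C_mul, coeff_sub, coeff_C_mul, abs_mul]
    rw [mul_assoc]
    refine mul_le_mul_of_nonneg_left ?_ (abs_nonneg _)
    have h1 : |(X * P).coeff n| ≤ B := by
      cases n with
      | zero =>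
        rw [coeff_X_mul_zero, abs_zero]
        exact (abs_nonneg _).trans (ih 0)
      | succ n =>
        rw [coeff_X_mul]
        exact ih n
    have h2 : |a j * P.coeff n| ≤ |a j| * B := by
      rw [abs_mul]
      exact mul_le_mul_of_nonneg_left (ih n) (abs_nonneg _)
    calc _ ≤ |(X * P).coeff n| + |a j * P.coeff n| := abs_sub _ _
      _ ≤ B + |a j| * B := add_le_add h1 h2
      _ = _ := by ring

lemma ell_coeff {r : ℕ} {x : Fin r → ℝ} {M : ℝ} (hM : 1 ≤ M) (hx : ∀ i, |x i| ≤ M)
    (hd : ∀ i j, i ≠ j → 1 ≤ |x i - x j|) (i : Fin r) (n : ℕ) :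
    |(ell x i).coeff n| ≤ (2 * M) ^ r := by
  unfold ell
  refine (coeff_bound _ _ _ n).trans ?_
  calc ∏ j ∈ Finset.univ.erase i, (|(x i - x j)⁻¹| * (1 + |x j|)) ≤ ∏ j ∈ Finset.univ.erase i, (2 * M) := by
        refine Finset.prod_le_prod (fun j _ => by positivity) fun j hj => ?_
        have h1 := hd i j (Finset.ne_of_mem_erase hj).symm
        have h2 : |(x i - x j)⁻¹| ≤ 1 := by
          rw [abs_inv]
          exact inv_le_one_of_one_le₀ h1
        calc |(x i - x j)⁻¹| * (1 + |x j|) ≤ 1 * (M + M) := by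
              gcongr
              exact hx j
          _ = 2 * M := by ring
    _ = (2 * M) ^ (r - 1) := by
        rw [Finset.prod_const, Finset.card_erase_of_mem (Finset.mem_univ _), Finset.card_univ,
          Fintype.card_fin]
    _ ≤ (2 * M) ^ r := pow_le_pow_right₀ (by linarith) (Nat.sub_le _ _)

/-- coefficients of the polynomial with the values `w` at the points `x` -/
noncomputable def sh {r : ℕ} (k : ℕ) (x w : Fin r → ℝ) : Fin k → ℝ :=
  fun j => ∑ i, w i * (ell x i).coeff j

lemma sh_eval {r k : ℕ} (hrk : r ≤ k) {x : Fin r → ℝ} (hx : Function.Injective x) (w : Fin r → ℝ)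
    (l : Fin r) : ∑ j : Fin k, sh k x w j * x l ^ (j : ℕ) = w l := by
  unfold sh
  simp only [Finset.sum_mul]
  rw [Finset.sum_comm]
  have h1 : ∀ i : Fin r, ∑ j : Fin k, w i * (ell x i).coeff j * x l ^ (j : ℕ) =
      w i * (ell x i).eval (x l) := by
    intro i
    rw [eval_eq_sum_range' ((ell_natDegree x i).trans_le hrk), Finset.mul_sum,
      ← Fin.sum_univ_eq_sum_range (fun j => w i * ((ell x i).coeff j * x l ^ j)) k]
    refine Finset.sum_congr rfl fun j _ => ?_
    ring
  rw [Finset.sum_congr rfl fun i _ => h1 i, Finset.sum_eq_single l]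
  · rw [ell_self hx, mul_one]
  · intro i _ hi
    rw [ell_ne x hi.symm, mul_zero]
  · intro h
    exact absurd (Finset.mem_univ l) h

lemma sh_bound {r k : ℕ} {x : Fin r → ℝ} {M : ℝ} (hM : 1 ≤ M) (hx : ∀ i, |x i| ≤ M)
    (hd : ∀ i j, i ≠ j → 1 ≤ |x i - x j|) {w : Fin r → ℝ} {δ : ℝ} (hw : ∀ i, |w i| ≤ δ) (j : Fin k) :
    |sh k x w j| ≤ r * (2 * M) ^ r * δ := by
  unfold sh
  calc |∑ i, w i * (ell x i).coeff j| ≤ ∑ i, |w i * (ell x i).coeff j| := Finset.abs_sum_le_sum_abs _ _
    _ ≤ ∑ _i : Fin r, δ * (2 * M) ^ r := by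
        refine Finset.sum_le_sum fun i _ => ?_
        rw [abs_mul]
        have h0 : 0 ≤ δ := (abs_nonneg _).trans (hw i)
        exact mul_le_mul (hw i) (ell_coeff hM hx hd i j) (abs_nonneg _) h0
    _ = r * (2 * M) ^ r * δ := by
        rw [Finset.sum_const, Finset.card_univ, Fintype.card_fin, nsmul_eq_mul]
        ring

lemma sh_measurable {r : ℕ} (k : ℕ) (x : Fin r → ℝ) : Measurable (sh k x) := by
  unfold sh
  fun_prop

/-- difference of two products -/
lemma prod_sub_le {ι : Type} [DecidableEq ι] (s : Finset ι) {a b X : ι → ℝ} {K ρ : ℝ} (hρ : 0 ≤ ρ)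
    (hK : 1 ≤ K) (hX : ∀ i ∈ s, 0 ≤ X i)
    (ha : ∀ i ∈ s, |a i| ≤ K * X i) (hb : ∀ i ∈ s, |b i| ≤ K * X i) (hab : ∀ i ∈ s, |a i - b i| ≤ ρ * X i) :
    |∏ i ∈ s, a i - ∏ i ∈ s, b i| ≤ s.card * K ^ s.card * ρ * ∏ i ∈ s, X i := by
  induction s using Finset.induction_on with
  | empty => simp
  | insert j s hj ih =>
    have ih' := ih (fun i hi => hX i (Finset.mem_insert_of_mem hi))
      (fun i hi => ha i (Finset.mem_insert_of_mem hi)) (fun i hi => hb i (Finset.mem_insert_of_mem hi))
      (fun i hi => hab i (Finset.mem_insert_of_mem hi))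
    rw [Finset.prod_insert hj, Finset.prod_insert hj, Finset.prod_insert hj, Finset.card_insert_of_notMem hj]
    set P := ∏ i ∈ s, a i
    set Q := ∏ i ∈ s, b i
    set Z := ∏ i ∈ s, X i with hZ
    have hZ0 : 0 ≤ Z := Finset.prod_nonneg fun i hi => hX i (Finset.mem_insert_of_mem hi)
    have hXj := hX j (Finset.mem_insert_self _ _)
    have hQ : |P| ≤ K ^ s.card * Z := by
      rw [Finset.abs_prod, hZ, ← Finset.prod_const, ← Finset.prod_mul_distrib]
      exact Finset.prod_le_prod (fun i _ => abs_nonneg _) fun i hi => ha i (Finset.mem_insert_of_mem hi)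
    have e : a j * P - b j * Q = (a j - b j) * P + b j * (P - Q) := by ring
    rw [e]
    have hKs : (1 : ℝ) ≤ K ^ s.card := one_le_pow₀ hK
    calc |(a j - b j) * P + b j * (P - Q)| ≤ |a j - b j| * |P| + |b j| * |P - Q| := by
          rw [← abs_mul, ← abs_mul]
          exact abs_add_le _ _
      _ ≤ (ρ * X j) * (K ^ s.card * Z) + (K * X j) * (s.card * K ^ s.card * ρ * Z) := by
          have h1 := hab j (Finset.mem_insert_self _ _)
          have h2 := hb j (Finset.mem_insert_self _ _)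
          have h3 : 0 ≤ K * X j := (abs_nonneg _).trans h2
          have h4 : 0 ≤ ρ * X j := by positivity
          exact add_le_add (mul_le_mul h1 hQ (abs_nonneg _) h4) (mul_le_mul h2 ih' (abs_nonneg _) h3)
      _ = (1 + s.card * K) * (K ^ s.card * ρ * (X j * Z)) := by ring
      _ ≤ ((s.card + 1) * K) * (K ^ s.card * ρ * (X j * Z)) := by
          refine mul_le_mul_of_nonneg_right ?_ (by positivity)
          linarith
      _ = _ := by push_cast; ring

end Pool.Agent.Helper92K9.MP
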