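import Pool.Agent.Helper92K9.MP.Sum

set_option autoImplicit false

/-!
# Correlations in the mean
-/

namespace Pool.Agent.Helper92K9.MP

open Finset Filter Topology MeasureTheory
open Pool.Agent.H305R2 (VV VV_tendsto VV_nonneg roughPart)
open Pool.Agent.Y122.PC (Pr mem_Pr mertens)

variable {k : ℕ}

lemma prod_im {n : ℕ} {q : Fin n → ℕ} (hq : Function.Injective q) (f : ℕ → ℝ) :
    ∏ p ∈ Finset.univ.image q, f p = ∏ l, f (q l) :=
  Finset.prod_image fun _ _ _ _ h => hq h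

/-- sum over a set of tuples of the products of the indicators -/
noncomputable def YY (α : ℝ) (G ω : ℕ → ℝ) {n : ℕ} (T : Finset (Fin n → ℕ)) (c : Fin k → ℝ) : ℝ :=
  ∑ q ∈ T, ∏ l, gi α G ω c (q l)

/-- sum over a set of tuples of the products of the weights -/
noncomputable def SW (f : ℕ → ℝ) {n : ℕ} (T : Finset (Fin n → ℕ)) : ℝ := ∑ q ∈ T, ∏ l, f (q l)

lemma YY_nonneg (α : ℝ) (G ω : ℕ → ℝ) {n : ℕ} (T : Finset (Fin n → ℕ)) (c : Fin k → ℝ) :
    0 ≤ YY α G ω T c :=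
  Finset.sum_nonneg fun q _ => Finset.prod_nonneg fun l _ => gi_nonneg _ _ _ _ _

lemma YY_le (α : ℝ) (G ω : ℕ → ℝ) {n : ℕ} (T : Finset (Fin n → ℕ)) (c : Fin k → ℝ) :
    YY α G ω T c ≤ T.card := by
  unfold YY
  calc _ ≤ ∑ q ∈ T, (1 : ℝ) := Finset.sum_le_sum fun q _ =>
        Finset.prod_le_one (fun l _ => gi_nonneg _ _ _ _ _) fun l _ => gi_le_one _ _ _ _ _
    _ = T.card := by simp

lemma measurable_YY (α : ℝ) (G ω : ℕ → ℝ) {n : ℕ} (T : Finset (Fin n → ℕ)) :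
    Measurable fun c : Fin k → ℝ => YY α G ω T c :=
  Finset.measurable_fun_sum T fun q _ => Finset.measurable_fun_prod _ fun l _ => measurable_gi α G ω (q l)

lemma SW_nonneg {f : ℕ → ℝ} (hf : ∀ p, 0 ≤ f p) {n : ℕ} (T : Finset (Fin n → ℕ)) : 0 ≤ SW f T :=
  Finset.sum_nonneg fun q _ => Finset.prod_nonneg fun l _ => hf _

lemma integrable_prod_gi (α : ℝ) (G ω : ℕ → ℝ) {n : ℕ} (q : Fin n → ℕ) (u v : Fin k → ℝ) :
    Integrable (fun c : Fin k → ℝ => ∏ l, gi α G ω c (q l)) (volume.restrict (Bx u v)) := by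
  refine integrable_bdd (C := 1) (Finset.measurable_fun_prod _ fun l _ => measurable_gi α G ω (q l)) fun c => ?_
  rw [abs_of_nonneg (Finset.prod_nonneg fun l _ => gi_nonneg _ _ _ _ _)]
  exact Finset.prod_le_one (fun l _ => gi_nonneg _ _ _ _ _) fun l _ => gi_le_one _ _ _ _ _

theorem tup_sum {α : ℝ} {G ω : ℕ → ℝ} {D : ℕ} {u v : Fin k → ℝ} (hF : Fam k α G ω D u v) (Θ : ℕ) :
    ∃ C : ℝ, 0 < C ∧ ∀ᶠ m : ℕ in atTop, ∀ n : ℕ, n ≤ k → ∀ T : Finset (Fin n → ℕ),
    (∀ q ∈ T, Function.Injective q) → (∀ q ∈ T, ∀ l, m ≤ q l ∧ q l ≤ m ^ Θ) →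
    |(∫ c in Bx u v, YY α G ω T c) - (volume : Measure (Fin k → ℝ)).real (Bx u v) * SW (mu α) T| ≤
      C / √m * SW xx T := by
  obtain ⟨C, hC, hev⟩ := tup hF Θ
  refine ⟨C, hC, ?_⟩
  filter_upwards [hev] with m hm n hn T hT1 hT2
  unfold YY SW
  rw [integral_finsetSum _ fun q _ => integrable_prod_gi α G ω q u v, Finset.mul_sum,
    ← Finset.sum_sub_distrib, Finset.mul_sum]
  refine (Finset.abs_sum_le_sum_abs _ _).trans (Finset.sum_le_sum fun q hq => ?_)
  have h := hm (Finset.univ.image q) (by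
    rw [Finset.card_image_of_injective _ (hT1 q hq), Finset.card_univ, Fintype.card_fin]; exact hn)
    (fun p hp => by
      obtain ⟨l, _, rfl⟩ := Finset.mem_image.1 hp
      exact hT2 q hq l)
  simp only [prod_im (hT1 q hq)] at h
  exact h

theorem pair_sum {α : ℝ} {G ω : ℕ → ℝ} {D : ℕ} {u v : Fin k → ℝ} (hF : Fam k α G ω D u v) (Θ : ℕ) :
    ∃ C : ℝ, 0 < C ∧ ∀ᶠ m : ℕ in atTop, ∀ n : ℕ, 2 * n ≤ k → ∀ T T' : Finset (Fin n → ℕ),
    (∀ q ∈ T, Function.Injective q) → (∀ q ∈ T, ∀ l, m ≤ q l ∧ q l ≤ m ^ Θ) →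
    (∀ q ∈ T', Function.Injective q) → (∀ q ∈ T', ∀ l, m ≤ q l ∧ q l ≤ m ^ Θ) →
    (∀ q ∈ T, ∀ q' ∈ T', ∀ l l', q l ≠ q' l') →
    |(∫ c in Bx u v, YY α G ω T c * YY α G ω T' c) -
      (volume : Measure (Fin k → ℝ)).real (Bx u v) * (SW (mu α) T * SW (mu α) T')| ≤
      C / √m * (SW xx T * SW xx T') := by
  classical
  obtain ⟨C, hC, hev⟩ := tup hF Θ
  refine ⟨C, hC, ?_⟩
  filter_upwards [hev] with m hm n hn T T' hT1 hT2 hT3 hT4 hdis
  unfold YY SW
  simp only [Finset.sum_mul_sum]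
  have hint : ∀ q q' : Fin n → ℕ, Integrable (fun c : Fin k → ℝ => (∏ l, gi α G ω c (q l)) *
      ∏ l, gi α G ω c (q' l)) (volume.restrict (Bx u v)) := by
    intro q q'
    refine integrable_bdd (C := 1) ?_ fun c => ?_
    · exact (Finset.measurable_fun_prod _ fun l _ => measurable_gi α G ω (q l)).mul
        (Finset.measurable_fun_prod _ fun l _ => measurable_gi α G ω (q' l))
    · have h1 : ∀ q : Fin n → ℕ, 0 ≤ ∏ l, gi α G ω c (q l) := fun q =>
        Finset.prod_nonneg fun l _ => gi_nonneg _ _ _ _ _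
      have h2 : ∀ q : Fin n → ℕ, ∏ l, gi α G ω c (q l) ≤ 1 := fun q =>
        Finset.prod_le_one (fun l _ => gi_nonneg _ _ _ _ _) fun l _ => gi_le_one _ _ _ _ _
      rw [abs_of_nonneg (mul_nonneg (h1 q) (h1 q'))]
      exact mul_le_one₀ (h2 q) (h1 q') (h2 q')
  rw [integral_finsetSum _ fun q _ => integrable_finsetSum _ fun q' _ => hint q q', Finset.mul_sum,
    ← Finset.sum_sub_distrib, Finset.mul_sum]
  refine (Finset.abs_sum_le_sum_abs _ _).trans (Finset.sum_le_sum fun q hq => ?_)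
  rw [integral_finsetSum _ fun q' _ => hint q q', Finset.mul_sum, ← Finset.sum_sub_distrib, Finset.mul_sum]
  refine (Finset.abs_sum_le_sum_abs _ _).trans (Finset.sum_le_sum fun q' hq' => ?_)
  have hdisj : Disjoint (Finset.univ.image q) (Finset.univ.image q') := by
    rw [Finset.disjoint_left]
    intro p hp hp'
    obtain ⟨l, _, rfl⟩ := Finset.mem_image.1 hp
    obtain ⟨l', _, h⟩ := Finset.mem_image.1 hp'
    exact hdis q hq q' hq' l l' h.symm
  have h := hm (Finset.univ.image q ∪ Finset.univ.image q') (by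
    refine (Finset.card_union_le _ _).trans ?_
    rw [Finset.card_image_of_injective _ (hT1 q hq), Finset.card_image_of_injective _ (hT3 q' hq'),
      Finset.card_univ, Fintype.card_fin]
    omega)
    (fun p hp => by
      rcases Finset.mem_union.1 hp with h | h
      · obtain ⟨l, _, rfl⟩ := Finset.mem_image.1 h
        exact hT2 q hq l
      · obtain ⟨l, _, rfl⟩ := Finset.mem_image.1 h
        exact hT4 q' hq' l)
  simp only [Finset.prod_union hdisj, prod_im (hT1 q hq), prod_im (hT3 q' hq')] at h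
  exact h

/-- **Correlations in the mean.** -/
theorem mean {α : ℝ} {G ω : ℕ → ℝ} {D : ℕ} {u v : Fin k → ℝ} (hF : Fam k α G ω D u v) {r : ℕ} (hr : r ≤ k)
    {a b : Fin r → ℝ} (ha : ∀ i, 0 < a i) (hab : ∀ i, a i < b i) :
    Tendsto (fun z : ℝ => ∫ c in Bx u v, YY α G ω (TW a b z) c) atTop
      (𝓝 ((volume : Measure (Fin k → ℝ)).real (Bx u v) * ∏ i, (kap α * Real.log (b i / a i)))) := by
  classical
  obtain ⟨C, hC, hev⟩ := tup_sum hF 2
  have h1 : Tendsto (fun z : ℝ => SW (mu α) (TW a b z)) atTop (𝓝 (∏ i, (kap α * Real.log (b i / a i)))) :=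
    tw_sum (wt_mu hF.hα) ha hab
  have h2 : Tendsto (fun z : ℝ => SW xx (TW a b z)) atTop (𝓝 (∏ i, (1 * Real.log (b i / a i)))) :=
    tw_sum wt_xx ha hab
  -- a common lower bound
  obtain ⟨a0, ha0, haa⟩ : ∃ a0 : ℝ, 0 < a0 ∧ ∀ i, a0 ≤ a i := by
    refine ⟨(1 + ∑ i, (a i)⁻¹)⁻¹, ?_, fun i => ?_⟩
    · have : 0 ≤ ∑ i, (a i)⁻¹ := Finset.sum_nonneg fun i _ => (inv_pos.2 (ha i)).le
      positivity
    · have h3 := Finset.single_le_sum (f := fun i => (a i)⁻¹) (fun i _ => (inv_pos.2 (ha i)).le) (Finset.mem_univ i)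
      rw [inv_le_comm₀ (by have := inv_pos.2 (ha i); linarith) (ha i)]
      linarith
  obtain ⟨b0, hb0, hbb⟩ : ∃ b0 : ℝ, 0 < b0 ∧ ∀ i, b i ≤ b0 := by
    refine ⟨1 + ∑ i, b i, ?_, fun i => ?_⟩
    · have : 0 ≤ ∑ i, b i := Finset.sum_nonneg fun i _ => ((ha i).trans (hab i)).le
      linarith
    · have h3 := Finset.single_le_sum (f := fun i => b i) (fun i _ => ((ha i).trans (hab i)).le) (Finset.mem_univ i)
      linarith
  have hfl : Tendsto (fun z : ℝ => ⌊a0 * z⌋₊) atTop atTop :=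
    tendsto_nat_floor_atTop.comp (tendsto_id.const_mul_atTop ha0)
  have hbig : ∀ᶠ z : ℝ in atTop, 2 * b0 / a0 + 2 ≤ a0 * z / 2 :=
    ((tendsto_id.const_mul_atTop ha0).atTop_div_const two_pos).eventually_ge_atTop _
  have hd : ∀ᶠ z : ℝ in atTop, |(∫ c in Bx u v, YY α G ω (TW a b z) c) -
      (volume : Measure (Fin k → ℝ)).real (Bx u v) * SW (mu α) (TW a b z)| ≤
      C / √(⌊a0 * z⌋₊ : ℝ) * SW xx (TW a b z) := by
    filter_upwards [hfl.eventually hev, hbig, eventually_gt_atTop 0] with z hz hb hz0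
    have haz : 0 < a0 * z := by positivity
    have hf1 : a0 * z < (⌊a0 * z⌋₊ : ℝ) + 1 := Nat.lt_floor_add_one _
    have hf2 : (⌊a0 * z⌋₊ : ℝ) ≤ a0 * z := Nat.floor_le haz.le
    have hb' : 0 < 2 * b0 / a0 := by positivity
    refine hz r hr (TW a b z) (fun q hq => (Finset.mem_filter.1 hq).2) fun q hq l => ?_
    have h3 := (Fintype.mem_piFinset.1 (Finset.mem_filter.1 hq).1) l
    have hal := ha l
    have hbl : 0 < b l := (ha l).trans (hab l)
    obtain ⟨_, h4, h5⟩ := (mem_Pr (by positivity) (by positivity)).1 h3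
    constructor
    · have : (⌊a0 * z⌋₊ : ℝ) ≤ q l := by
        refine hf2.trans (le_trans ?_ h4.le)
        exact mul_le_mul_of_nonneg_right (haa l) hz0.le
      exact_mod_cast this
    · have : (q l : ℝ) ≤ (⌊a0 * z⌋₊ : ℝ) ^ 2 := by
        have g1 : a0 * z / 2 ≤ (⌊a0 * z⌋₊ : ℝ) := by linarith
        have g2 : 2 * b0 / a0 ≤ (⌊a0 * z⌋₊ : ℝ) := by linarith
        calc (q l : ℝ) ≤ b l * z := h5
          _ ≤ b0 * z := by have := hbb l; gcongr
          _ = (a0 * z / 2) * (2 * b0 / a0) := by field_simp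
          _ ≤ (⌊a0 * z⌋₊ : ℝ) * (⌊a0 * z⌋₊ : ℝ) := by gcongr
          _ = _ := by ring
      exact_mod_cast this
  have hsq : Tendsto (fun z : ℝ => C / √(⌊a0 * z⌋₊ : ℝ)) atTop (𝓝 0) :=
    ((Real.tendsto_sqrt_atTop.comp (tendsto_natCast_atTop_atTop.comp hfl))).const_div_atTop C
  have hz0 := hsq.mul h2
  rw [zero_mul] at hz0
  have hd0 : Tendsto (fun z : ℝ => (∫ c in Bx u v, YY α G ω (TW a b z) c) -
      (volume : Measure (Fin k → ℝ)).real (Bx u v) * SW (mu α) (TW a b z)) atTop (𝓝 0) :=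
    squeeze_zero_norm' (hd.mono fun z hz => by rw [Real.norm_eq_abs]; exact hz) hz0
  have h := hd0.add (h1.const_mul ((volume : Measure (Fin k → ℝ)).real (Bx u v)))
  rw [zero_add] at h
  refine h.congr fun z => ?_
  ring

end Pool.Agent.Helper92K9.MP
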