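import Pool.Agent.Helper92K9.MP.Gap

set_option autoImplicit false

/-!
# Regions of parameters
-/

namespace Pool.Agent.Helper92K9.MP

open Finset Filter Topology MeasureTheory
open Pool.Agent.H305R2 (VV VV_tendsto VV_nonneg roughPart)
open Pool.Agent.Y122.PC (Pr mem_Pr mertens)

variable {k : ℕ}

/-- the amplitude is positive, of the order of the highest term -/
def Adm (G ω : ℕ → ℝ) (c : Fin k → ℝ) : Prop :=
  ∃ δ : ℝ, 0 < δ ∧ ∀ᶠ p : ℕ in atTop, δ * (ω p * (p : ℝ) ^ (k - 1)) ≤ amp G ω c p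

lemma Adm.fam (hk : 0 < k) {α : ℝ} (hα : 1 < α) {G ω : ℕ → ℝ} {D : ℕ}
    (hG : ∀ᶠ p : ℕ in atTop, |G p| ≤ (p : ℝ) ^ D)
    (hω : ∀ᶠ p : ℕ in atTop, ((p : ℝ) ^ D)⁻¹ ≤ ω p ∧ ω p ≤ (p : ℝ) ^ D) {c0 : Fin k → ℝ}
    (h : Adm G ω c0) : ∃ η : ℝ, 0 < η ∧
      Fam k α G ω (D + 1) (fun j => c0 j - η) (fun j => c0 j + η) := by
  obtain ⟨δ, hδ, hev⟩ := h
  have hk0 : (0 : ℝ) < k := by exact_mod_cast hk
  set η := δ / (2 * k) with hη
  have hη0 : 0 < η := by positivity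
  refine ⟨η, hη0, hα, ?_, ?_, fun j => by linarith, ?_⟩
  · filter_upwards [hG, eventually_ge_atTop 1] with p h1 h2
    have h3 : (1 : ℝ) ≤ p := by exact_mod_cast h2
    exact h1.trans (pow_le_pow_right₀ h3 (by omega))
  · filter_upwards [hω, eventually_ge_atTop 1] with p h1 h2
    have h3 : (1 : ℝ) ≤ p := by exact_mod_cast h2
    have h4 : (p : ℝ) ^ D ≤ (p : ℝ) ^ (D + 1) := pow_le_pow_right₀ h3 (by omega)
    exact ⟨(inv_anti₀ (by positivity) h4).trans h1.1, h1.2.trans h4⟩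
  · have hbig : ∀ᶠ p : ℕ in atTop, 2 / δ ≤ (p : ℝ) := tendsto_natCast_atTop_atTop.eventually_ge_atTop _
    filter_upwards [hev, hω, hbig, eventually_ge_atTop 1] with p h1 h2 h3 h4 c hc
    rw [mem_Bx] at hc
    have hp1 : (1 : ℝ) ≤ p := by exact_mod_cast h4
    have hpD : (0 : ℝ) < (p : ℝ) ^ D := by positivity
    have hω0 : 0 < ω p := lt_of_lt_of_le (by positivity) h2.1
    have hpk : (1 : ℝ) ≤ (p : ℝ) ^ (k - 1) := one_le_pow₀ hp1
    have hdiff : |∑ j : Fin k, c j * (p : ℝ) ^ (j : ℕ) - ∑ j : Fin k, c0 j * (p : ℝ) ^ (j : ℕ)| ≤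
        k * (η * (p : ℝ) ^ (k - 1)) := by
      rw [← Finset.sum_sub_distrib]
      calc _ ≤ ∑ j : Fin k, |c j * (p : ℝ) ^ (j : ℕ) - c0 j * (p : ℝ) ^ (j : ℕ)| :=
            Finset.abs_sum_le_sum_abs _ _
        _ ≤ ∑ _j : Fin k, η * (p : ℝ) ^ (k - 1) := by
            refine Finset.sum_le_sum fun j _ => ?_
            rw [← sub_mul, abs_mul, abs_of_nonneg (by positivity : (0 : ℝ) ≤ (p : ℝ) ^ (j : ℕ))]
            refine mul_le_mul ?_ (pow_le_pow_right₀ hp1 (by omega)) (by positivity) hη0.le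
            have := hc j
            rw [abs_le]
            constructor <;> linarith [this.1, this.2]
        _ = _ := by rw [Finset.sum_const, Finset.card_univ, Fintype.card_fin, nsmul_eq_mul]
    have e1 : amp G ω c p = amp G ω c0 p + ω p * (∑ j : Fin k, c j * (p : ℝ) ^ (j : ℕ) -
        ∑ j : Fin k, c0 j * (p : ℝ) ^ (j : ℕ)) := by
      unfold amp; ring
    have e2 : k * (η * (p : ℝ) ^ (k - 1)) = δ / 2 * (p : ℝ) ^ (k - 1) := by
      rw [hη]; field_simp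
    rw [e2] at hdiff
    have h5 := mul_le_mul_of_nonneg_left (neg_le_of_abs_le hdiff) hω0.le
    rw [e1]
    have h6 : δ / 2 * (ω p * (p : ℝ) ^ (k - 1)) ≤ amp G ω c0 p + ω p * (∑ j : Fin k, c j * (p : ℝ) ^ (j : ℕ) -
        ∑ j : Fin k, c0 j * (p : ℝ) ^ (j : ℕ)) := by
      have e3 : ω p * -(δ / 2 * (p : ℝ) ^ (k - 1)) = -(δ / 2 * (ω p * (p : ℝ) ^ (k - 1))) := by ring
      rw [e3] at h5
      linarith
    refine le_trans ?_ h6
    have h7 : ((p : ℝ) ^ D)⁻¹ ≤ ω p * (p : ℝ) ^ (k - 1) :=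
      h2.1.trans (le_mul_of_one_le_right hω0.le hpk)
    have h8 : (p : ℝ)⁻¹ ≤ δ / 2 := by
      rw [inv_le_comm₀ (by linarith) (by positivity), inv_div]
      exact h3
    calc ((p : ℝ) ^ (D + 1))⁻¹ = (p : ℝ)⁻¹ * ((p : ℝ) ^ D)⁻¹ := by rw [pow_succ, mul_inv, mul_comm]
      _ ≤ δ / 2 * (ω p * (p : ℝ) ^ (k - 1)) := by gcongr

theorem region (hk : 0 < k) {α : ℝ} (hα : 1 < α) {G ω : ℕ → ℝ} {D : ℕ}
    (hG : ∀ᶠ p : ℕ in atTop, |G p| ≤ (p : ℝ) ^ D)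
    (hω : ∀ᶠ p : ℕ in atTop, ((p : ℝ) ^ D)⁻¹ ≤ ω p ∧ ω p ≤ (p : ℝ) ^ D) {P : (Fin k → ℝ) → Prop}
    (hbox : ∀ (D' : ℕ) (u v : Fin k → ℝ), Fam k α G ω D' u v → ∀ᵐ c ∂(volume.restrict (Bx u v)), P c) :
    ∀ᵐ c : Fin k → ℝ, Adm G ω c → P c := by
  rw [ae_iff]
  refine measure_null_of_locally_null _ fun c0 hc0 => ?_
  simp only [Set.mem_ofPred_eq, Classical.not_imp] at hc0
  obtain ⟨η, hη, hF⟩ := hc0.1.fam hk hα hG hω
  have h1 := hbox _ _ _ hF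
  rw [ae_restrict_iff' (measurableSet_Bx _ _), ae_iff] at h1
  refine ⟨Bx (fun j => c0 j - η) (fun j => c0 j + η) ∩ {c | ¬ (Adm G ω c → P c)}, ?_, ?_⟩
  · refine Filter.inter_mem (mem_nhdsWithin_of_mem_nhds ?_) self_mem_nhdsWithin
    exact set_pi_mem_nhds Set.finite_univ fun j _ => Ioc_mem_nhds (by linarith) (by linarith)
  · refine measure_mono_null ?_ h1
    rintro c ⟨hc1, hc2⟩
    simp only [Set.mem_ofPred_eq, Classical.not_imp] at hc2 ⊢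
    exact ⟨hc1, hc2.2⟩

end Pool.Agent.Helper92K9.MP
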