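import Pool.Agent.Helper92K9.MP.Avg

set_option autoImplicit false

/-!
# Correlations of the events that given numbers are exponents
-/

namespace Pool.Agent.Helper92K9.MP

open Finset Filter Topology MeasureTheory
open Pool.Agent.H305R2 (VV VV_tendsto VV_nonneg roughPart)

variable {k : ℕ}

/-- `log p / p` -/
noncomputable def xx (p : ℕ) : ℝ := Real.log p / p

/-- the probability that `p` is an exponent -/
noncomputable def mu (α : ℝ) (p : ℕ) : ℝ := VV p / (Real.log α * p)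

lemma xx_nonneg (p : ℕ) : 0 ≤ xx p := div_nonneg (Real.log_natCast_nonneg p) (Nat.cast_nonneg p)

lemma mu_nonneg {α : ℝ} (hα : 1 < α) (p : ℕ) : 0 ≤ mu α p :=
  div_nonneg (VV_nonneg p) (mul_nonneg (Real.log_pos hα).le (Nat.cast_nonneg p))

/-- the class of the families -/
structure Fam (k : ℕ) (α : ℝ) (G ω : ℕ → ℝ) (D : ℕ) (u v : Fin k → ℝ) : Prop where
  hα : 1 < α
  hG : ∀ᶠ p : ℕ in atTop, |G p| ≤ (p : ℝ) ^ D
  hω : ∀ᶠ p : ℕ in atTop, ((p : ℝ) ^ D)⁻¹ ≤ ω p ∧ ω p ≤ (p : ℝ) ^ D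
  huv : ∀ j, u j < v j
  hamp : ∀ᶠ p : ℕ in atTop, ∀ c ∈ Bx u v, ((p : ℝ) ^ D)⁻¹ ≤ amp G ω c p

lemma mem_Bx {u v x : Fin k → ℝ} : x ∈ Bx u v ↔ ∀ j, u j < x j ∧ x j ≤ v j := by
  simp [Bx, Set.mem_pi]

lemma Fam.amp_le {α : ℝ} {G ω : ℕ → ℝ} {D : ℕ} {u v : Fin k → ℝ} (hF : Fam k α G ω D u v) :
    ∀ᶠ p : ℕ in atTop, ∀ c ∈ Bx u v, amp G ω c p ≤ (p : ℝ) ^ (D + k + 1) := by
  set B := ∑ j, (|u j| + |v j|) with hB
  have hB0 : 0 ≤ B := Finset.sum_nonneg fun j _ => by positivity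
  filter_upwards [hF.hG, hF.hω, ev_pow (1 + B) 0, eventually_ge_atTop 1] with p h1 h2 h3 hp1 c hc
  have hp1' : (1 : ℝ) ≤ p := by exact_mod_cast hp1
  rw [pow_zero, mul_one] at h3
  rw [mem_Bx] at hc
  have hs : |∑ j : Fin k, c j * (p : ℝ) ^ (j : ℕ)| ≤ B * (p : ℝ) ^ k := by
    calc |∑ j : Fin k, c j * (p : ℝ) ^ (j : ℕ)| ≤ ∑ j : Fin k, |c j * (p : ℝ) ^ (j : ℕ)| :=
          Finset.abs_sum_le_sum_abs _ _
      _ ≤ ∑ j : Fin k, (|u j| + |v j|) * (p : ℝ) ^ k := by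
          refine Finset.sum_le_sum fun j _ => ?_
          rw [abs_mul, abs_of_nonneg (by positivity : (0 : ℝ) ≤ (p : ℝ) ^ (j : ℕ))]
          refine mul_le_mul ?_ (pow_le_pow_right₀ hp1' j.2.le) (by positivity) (by positivity)
          rw [abs_le]
          have h5 := hc j
          constructor
          · linarith [neg_abs_le (u j), abs_nonneg (v j)]
          · linarith [le_abs_self (v j), abs_nonneg (u j)]
      _ = B * (p : ℝ) ^ k := by rw [← Finset.sum_mul]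
  have hpD : (0 : ℝ) < (p : ℝ) ^ D := by positivity
  have hω0 : 0 ≤ ω p := le_trans (by positivity) h2.1
  have hpk : (1 : ℝ) ≤ (p : ℝ) ^ k := one_le_pow₀ hp1'
  unfold amp
  calc G p + ω p * ∑ j : Fin k, c j * (p : ℝ) ^ (j : ℕ) ≤ (p : ℝ) ^ D + (p : ℝ) ^ D * (B * (p : ℝ) ^ k) := by
        refine add_le_add ((le_abs_self _).trans h1) ?_
        refine (mul_le_mul_of_nonneg_left ((le_abs_self _).trans hs) hω0).trans ?_
        exact mul_le_mul_of_nonneg_right h2.2 (by positivity)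
    _ ≤ (p : ℝ) ^ D * ((1 + B) * (p : ℝ) ^ k) := by
        have : (p : ℝ) ^ D ≤ (p : ℝ) ^ D * (p : ℝ) ^ k := le_mul_of_one_le_right hpD.le hpk
        linarith
    _ ≤ (p : ℝ) ^ D * (p * (p : ℝ) ^ k) := by gcongr
    _ = (p : ℝ) ^ (D + k + 1) := by rw [pow_add, pow_add]; ring

lemma prod_equiv (P : Finset ℕ) (f : ℕ → ℝ) :
    ∏ p ∈ P, f p = ∏ i : Fin P.card, f (P.equivFin.symm i) := by
  rw [Equiv.prod_comp P.equivFin.symm (fun x : P => f x), Finset.prod_coe_sort]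

theorem tup {α : ℝ} {G ω : ℕ → ℝ} {D : ℕ} {u v : Fin k → ℝ} (hF : Fam k α G ω D u v) (Θ : ℕ) :
    ∃ C : ℝ, 0 < C ∧ ∀ᶠ m : ℕ in atTop, ∀ P : Finset ℕ, P.card ≤ k → (∀ p ∈ P, m ≤ p ∧ p ≤ m ^ Θ) →
    |(∫ c in Bx u v, ∏ p ∈ P, gi α G ω c p) -
      (volume : Measure (Fin k → ℝ)).real (Bx u v) * ∏ p ∈ P, mu α p| ≤
      C / √m * ∏ p ∈ P, xx p := by
  classical
  have hL : 0 < Real.log α := Real.log_pos hF.hα
  set L := Real.log α with hLdef
  set D' := D + k + 1 with hD'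
  set K := 2 * (Θ * k) + Θ * D + 2 with hK
  obtain ⟨C1, hC1, hav⟩ := Av_asymp hF.hα K D'
  obtain ⟨CS, δ, hCS, hδ, hbox⟩ := box_shift hF.huv
  set K1 := Real.exp Real.eulerMascheroniConstant + 1 with hK1
  have hV : ∀ᶠ p : ℕ in atTop, VV p / Real.log p < K1 :=
    VV_tendsto.eventually_lt_const (by rw [hK1]; linarith)
  set KK := K1 / L + C1 + 1 with hKK
  have hK1L : 0 < K1 / L := by positivity
  have hKK1 : 1 ≤ KK := by rw [hKK]; linarith
  set V := (volume : Measure (Fin k → ℝ)).real (Bx u v) with hVdef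
  have hV0 : 0 ≤ V := measureReal_nonneg
  have hall := hav.and (hV.and (hF.hG.and (hF.hω.and (hF.hamp.and (hF.amp_le.and ((ev_pow 1 4).and
    ((ev_log 1).and (eventually_ge_atTop 3))))))))
  obtain ⟨N, hN⟩ := eventually_atTop.1 hall
  refine ⟨CS + V * (k * KK ^ k * C1) + 1, by positivity, ?_⟩
  have hδev : ∀ᶠ m : ℕ in atTop, 1 / δ ≤ (m : ℝ) :=
    tendsto_natCast_atTop_atTop.eventually_ge_atTop _
  have hkev : ∀ᶠ m : ℕ in atTop, ((k : ℝ) * 2 ^ k) ≤ (m : ℝ) :=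
    tendsto_natCast_atTop_atTop.eventually_ge_atTop _
  filter_upwards [eventually_ge_atTop N, eventually_ge_atTop 3, hδev, hkev] with m hmN hm3 hmδ hmk P hPk hP
  have hm3' : (3 : ℝ) ≤ m := by exact_mod_cast hm3
  have hm0 : (0 : ℝ) < m := by linarith
  have hm1 : (1 : ℝ) ≤ m := by linarith
  set r := P.card with hr
  set e : Fin r → ℕ := fun i => (P.equivFin.symm i : ℕ) with he
  have heP : ∀ i, e i ∈ P := fun i => (P.equivFin.symm i).2
  have heinj : Function.Injective e := fun a b h => P.equivFin.symm.injective (Subtype.ext h)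
  have hfacts : ∀ p ∈ P, _ := fun p hp => hN p (hmN.trans (hP p hp).1)
  set h := ((m : ℝ) ^ K)⁻¹ with hh
  have hmK : (0 : ℝ) < (m : ℝ) ^ K := by positivity
  have hh0 : 0 < h := by positivity
  have hh1 : h ≤ 1 := inv_le_one_of_one_le₀ (one_le_pow₀ hm1)
  have hω0 : ∀ i, 0 < ω (e i) := fun i => by
    have h1 := (hfacts (e i) (heP i)).2.2.2.1.1
    have h2 : 0 < ((e i : ℝ)) := by
      have := (hP (e i) (heP i)).1
      exact_mod_cast (by omega : 0 < e i)
    exact lt_of_lt_of_le (by positivity) h1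
  -- the shift is small
  set η := ((m : ℝ) ^ (Θ * k + 1))⁻¹ with hη
  have hη0 : 0 < η := by positivity
  have hηδ : η ≤ δ := by
    rw [hη]
    have e1 : (m : ℝ) ≤ (m : ℝ) ^ (Θ * k + 1) := le_self_pow₀ hm1 (by omega)
    have e2 : 1 / δ ≤ (m : ℝ) ^ (Θ * k + 1) := hmδ.trans e1
    rw [inv_le_comm₀ (by positivity) hδ, ← one_div]
    exact e2
  have hbound : ∀ w ∈ Bx (fun _ : Fin r => (0 : ℝ)) (fun _ => h), ∀ j, |sv k ω e w j| ≤ η := by
    intro w hw j
    rw [mem_Bx] at hw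
    unfold sv
    have hδw : ∀ i, |w i / ω (e i)| ≤ h * (m : ℝ) ^ (Θ * D) := by
      intro i
      have h1 := (hfacts (e i) (heP i)).2.2.2.1.1
      have h2 := hP (e i) (heP i)
      have h3 : (0 : ℝ) < e i := by exact_mod_cast (by omega : 0 < e i)
      have h4 : (e i : ℝ) ≤ (m : ℝ) ^ Θ := by exact_mod_cast h2.2
      rw [abs_div, abs_of_pos (hω0 i), abs_of_pos (hw i).1, div_le_iff₀ (hω0 i)]
      have h5 : 1 ≤ (m : ℝ) ^ (Θ * D) * ω (e i) := by
        calc (1 : ℝ) = (e i : ℝ) ^ D * ((e i : ℝ) ^ D)⁻¹ := by field_simp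
          _ ≤ ((m : ℝ) ^ Θ) ^ D * ω (e i) := by gcongr
          _ = _ := by rw [← pow_mul]
      calc w i ≤ h * 1 := by rw [mul_one]; exact (hw i).2
        _ ≤ h * ((m : ℝ) ^ (Θ * D) * ω (e i)) := by gcongr
        _ = _ := by ring
    have h1 := sh_bound (k := k) (x := fun i => (e i : ℝ)) (M := (m : ℝ) ^ Θ) (one_le_pow₀ hm1)
      (fun i => by
        rw [abs_of_nonneg (Nat.cast_nonneg _)]
        exact_mod_cast (hP (e i) (heP i)).2)
      (fun i j hij => by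
        have hne : (e i : ℤ) - e j ≠ 0 := sub_ne_zero.2 (by exact_mod_cast heinj.ne hij)
        have : (1 : ℤ) ≤ |(e i : ℤ) - e j| := Int.one_le_abs hne
        exact_mod_cast this)
      hδw j
    refine h1.trans ?_
    have hrk : (r : ℝ) ≤ k := by exact_mod_cast hPk
    have h2 : (2 * (m : ℝ) ^ Θ) ^ r ≤ 2 ^ k * (m : ℝ) ^ (Θ * k) := by
      calc (2 * (m : ℝ) ^ Θ) ^ r ≤ (2 * (m : ℝ) ^ Θ) ^ k := by
            refine pow_le_pow_right₀ ?_ hPk
            have : (1 : ℝ) ≤ (m : ℝ) ^ Θ := one_le_pow₀ hm1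
            linarith
        _ = _ := by rw [mul_pow, ← pow_mul]
    calc (r : ℝ) * (2 * (m : ℝ) ^ Θ) ^ r * (h * (m : ℝ) ^ (Θ * D)) ≤
        k * (2 ^ k * (m : ℝ) ^ (Θ * k)) * (h * (m : ℝ) ^ (Θ * D)) := by gcongr
      _ = (k * 2 ^ k) * ((m : ℝ) ^ (Θ * k) * (m : ℝ) ^ (Θ * D) * h) := by ring
      _ ≤ m * ((m : ℝ) ^ (Θ * k) * (m : ℝ) ^ (Θ * D) * h) := by gcongr
      _ = η := by
          rw [hh, hη, hK]
          rw [show 2 * (Θ * k) + Θ * D + 2 = Θ * k + Θ * D + 1 + (Θ * k + 1) by ring]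
          rw [pow_add _ (Θ * k + Θ * D + 1) (Θ * k + 1)]
          have g1 : (m : ℝ) ^ (Θ * k + Θ * D + 1) = m * ((m : ℝ) ^ (Θ * k) * (m : ℝ) ^ (Θ * D)) := by
            rw [pow_add, pow_add]; ring
          rw [g1]
          field_simp
  have hcomp := compare hPk α G ω heinj (fun i => (hω0 i).ne') u v hh0 (ε := CS * η) (fun w hw => by
    have := hbox (fun c => ∏ i, gi α G ω c (e i))
      (Finset.measurable_fun_prod _ fun i _ => measurable_gi α G ω (e i))
      (fun c => Finset.prod_nonneg fun i _ => gi_nonneg _ _ _ _ _)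
      (fun c => Finset.prod_le_one (fun i _ => gi_nonneg _ _ _ _ _) fun i _ => gi_le_one _ _ _ _ _)
      η (sv k ω e w) hηδ (hbound w hw) hη0.le
    exact this)
  -- the window means
  set X := ∏ p ∈ P, xx p with hX
  have hsm : 0 < √(m : ℝ) := Real.sqrt_pos.2 hm0
  have hx : ∀ p ∈ P, ((m : ℝ) ^ Θ)⁻¹ ≤ xx p := by
    intro p hp
    have h1 := (hfacts p hp).2.2.2.2.2.2.2.1
    have h2 := hP p hp
    have h3 : (0 : ℝ) < p := by exact_mod_cast (by omega : 0 < p)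
    have h4 : (p : ℝ) ≤ (m : ℝ) ^ Θ := by exact_mod_cast h2.2
    unfold xx
    calc ((m : ℝ) ^ Θ)⁻¹ ≤ (p : ℝ)⁻¹ := inv_anti₀ h3 h4
      _ = 1 / p := (one_div _).symm
      _ ≤ Real.log p / p := by gcongr
  have hX1 : ((m : ℝ) ^ (Θ * k))⁻¹ ≤ X := by
    calc ((m : ℝ) ^ (Θ * k))⁻¹ = (((m : ℝ) ^ Θ)⁻¹) ^ k := by rw [inv_pow, ← pow_mul]
      _ ≤ (((m : ℝ) ^ Θ)⁻¹) ^ r := pow_le_pow_of_le_one (by positivity)
          (inv_le_one_of_one_le₀ (one_le_pow₀ hm1)) hPk
      _ = ∏ p ∈ P, ((m : ℝ) ^ Θ)⁻¹ := by rw [Finset.prod_const]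
      _ ≤ X := Finset.prod_le_prod (fun _ _ => by positivity) hx
  have hX0 : 0 ≤ X := le_trans (by positivity) hX1
  have herr1 : CS * η ≤ CS / √m * X := by
    have e1 : η = (m : ℝ)⁻¹ * ((m : ℝ) ^ (Θ * k))⁻¹ := by rw [hη, pow_succ]; field_simp
    have e2 : (m : ℝ)⁻¹ ≤ (√m)⁻¹ := by
      refine inv_anti₀ hsm ?_
      rw [Real.sqrt_le_left hm0.le]
      nlinarith
    rw [e1]
    calc CS * ((m : ℝ)⁻¹ * ((m : ℝ) ^ (Θ * k))⁻¹) ≤ CS * ((√m)⁻¹ * X) := by gcongr
      _ = _ := by ring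
  have hav2 : ∀ c ∈ Bx u v, ∀ p ∈ P, |Av α p h (amp G ω c p) - mu α p| ≤ C1 / √m * xx p := by
    intro c hc p hp
    obtain ⟨f1, f2, f3, f4, f5, f6, f7, f8, f9⟩ := hfacts p hp
    have h2 := hP p hp
    have hmp : (m : ℝ) ≤ p := by exact_mod_cast h2.1
    have hp0 : (0 : ℝ) < p := by linarith
    have hp1 : (1 : ℝ) ≤ p := by linarith
    have h3 := f1 (amp G ω c p) h (by
      refine le_trans (inv_anti₀ (by positivity) ?_) (f5 c hc)
      exact pow_le_pow_right₀ hp1 (by omega)) (f6 c hc) (by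
      rw [hh]
      exact inv_anti₀ hmK (pow_le_pow_left₀ hm0.le hmp K)) hh1
    refine h3.trans ?_
    have hq0 : 0 ≤ Real.log p := by linarith
    have e1 : Real.log p ^ 3 / (p : ℝ) ^ 2 = (Real.log p ^ 2 / p) * xx p := by
      unfold xx
      rw [div_mul_div_comm, ← pow_succ, ← pow_two]
    have e2 : Real.log p ^ 2 ≤ √p := by
      refine (le_abs_self _).trans (Real.abs_le_sqrt ?_)
      have g1 : (Real.log (p : ℝ) ^ 2) ^ 2 = 1 * Real.log (p : ℝ) ^ 4 := by ring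
      rw [g1]
      exact f7
    have e3 : Real.log p ^ 2 / p ≤ 1 / √m := by
      rw [div_le_div_iff₀ hp0 hsm, one_mul]
      calc Real.log p ^ 2 * √m ≤ √p * √p := by
            gcongr
        _ = p := Real.mul_self_sqrt hp0.le
    rw [e1]
    calc C1 * ((Real.log p ^ 2 / p) * xx p) ≤ C1 * ((1 / √m) * xx p) := by
          have := xx_nonneg p
          gcongr
      _ = _ := by ring
  have hmu : ∀ p ∈ P, |mu α p| ≤ KK * xx p := by
    intro p hp
    obtain ⟨f1, f2, f3, f4, f5, f6, f7, f8, f9⟩ := hfacts p hp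
    have hp0 : (0 : ℝ) < p := by exact_mod_cast (by omega : 0 < p)
    have hq0 : 0 < Real.log p := by linarith
    rw [div_lt_iff₀ hq0] at f2
    rw [abs_of_nonneg (mu_nonneg hF.hα p)]
    unfold mu xx
    rw [← hLdef]
    calc VV p / (L * p) ≤ (K1 * Real.log p) / (L * p) := by gcongr
      _ = K1 / L * (Real.log p / p) := by field_simp
      _ ≤ KK * (Real.log p / p) := by
          refine mul_le_mul_of_nonneg_right ?_ (by positivity)
          rw [hKK]; linarith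
  have hsm1 : 1 ≤ √(m : ℝ) := by
    rw [Real.one_le_sqrt]; exact hm1
  have hAvb : ∀ c ∈ Bx u v, ∀ p ∈ P, |Av α p h (amp G ω c p)| ≤ KK * xx p := by
    intro c hc p hp
    obtain ⟨f1, f2, f3, f4, f5, f6, f7, f8, f9⟩ := hfacts p hp
    have hp0 : (0 : ℝ) < p := by exact_mod_cast (by omega : 0 < p)
    have hq0 : 0 < Real.log p := by linarith
    rw [div_lt_iff₀ hq0] at f2
    have h1 := hav2 c hc p hp
    have h2 : |mu α p| ≤ K1 / L * xx p := by
      rw [abs_of_nonneg (mu_nonneg hF.hα p)]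
      unfold mu xx
      rw [← hLdef]
      calc VV p / (L * p) ≤ (K1 * Real.log p) / (L * p) := by gcongr
        _ = K1 / L * (Real.log p / p) := by field_simp
    have h3 : C1 / √m * xx p ≤ C1 * xx p := by
      have := xx_nonneg p
      gcongr
      exact div_le_self hC1.le hsm1
    have h4 : |Av α p h (amp G ω c p)| ≤ |Av α p h (amp G ω c p) - mu α p| + |mu α p| := by
      have := abs_add_le (Av α p h (amp G ω c p) - mu α p) (mu α p)
      rwa [sub_add_cancel] at this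
    have h5 : KK * xx p = K1 / L * xx p + C1 * xx p + xx p := by rw [hKK]; ring
    rw [h5]
    linarith [xx_nonneg p]
  have hprod : ∀ c ∈ Bx u v, |∏ p ∈ P, Av α p h (amp G ω c p) - ∏ p ∈ P, mu α p| ≤
      k * KK ^ k * C1 / √m * X := by
    intro c hc
    have h1 := prod_sub_le P (ρ := C1 / √m) (by positivity) hKK1 (fun p _ => xx_nonneg p)
      (hAvb c hc) hmu (hav2 c hc)
    refine h1.trans ?_
    rw [← hX, ← hr]
    have h2 : (r : ℝ) ≤ k := by exact_mod_cast hPk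
    have h3 : KK ^ r ≤ KK ^ k := pow_le_pow_right₀ hKK1 hPk
    calc (r : ℝ) * KK ^ r * (C1 / √m) * X ≤ k * KK ^ k * (C1 / √m) * X := by gcongr
      _ = _ := by ring
  -- conclusion
  have e1 : ∀ c : Fin k → ℝ, ∏ p ∈ P, gi α G ω c p = ∏ i, gi α G ω c (e i) := fun c => prod_equiv P _
  have e2 : ∀ c : Fin k → ℝ, ∏ p ∈ P, Av α p h (amp G ω c p) = ∏ i, Av α (e i) h (amp G ω c (e i)) :=
    fun c => prod_equiv P _
  simp only [← e1, ← e2] at hcomp
  have hmeas : Measurable fun c : Fin k → ℝ => ∏ p ∈ P, Av α p h (amp G ω c p) := by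
    refine Finset.measurable_fun_prod _ fun p _ => ?_
    have hm : Measurable fun a : ℝ => Av α p h a := by
      unfold Av
      refine Measurable.const_mul ?_ _
      simp only [intervalIntegral.integral_of_le hh0.le]
      have hmm : Measurable (Function.uncurry fun (a w : ℝ) => phi p ((a + w) * α ^ p)) := by
        unfold Function.uncurry
        exact (measurable_phi p).comp ((measurable_fst.add measurable_snd).mul_const _)
      exact (hmm.stronglyMeasurable.integral_prod_right (ν := volume.restrict (Set.Ioc 0 h))).measurable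
    exact hm.comp (measurable_amp G ω p)
  have hI : |(∫ c in Bx u v, ∏ p ∈ P, Av α p h (amp G ω c p)) - V * ∏ p ∈ P, mu α p| ≤
      V * (k * KK ^ k * C1 / √m * X) := by
    have h1 : V * ∏ p ∈ P, mu α p = ∫ _c in Bx u v, ∏ p ∈ P, mu α p := by
      rw [setIntegral_const, smul_eq_mul]
    have hbd : ∀ c ∈ Bx u v, ‖∏ p ∈ P, Av α p h (amp G ω c p)‖ ≤ KK ^ r * X := by
      intro c hc
      rw [Real.norm_eq_abs, Finset.abs_prod, hX, hr, ← Finset.prod_const, ← Finset.prod_mul_distrib]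
      exact Finset.prod_le_prod (fun _ _ => abs_nonneg _) (hAvb c hc)
    have hint : IntegrableOn (fun c => ∏ p ∈ P, Av α p h (amp G ω c p)) (Bx u v) volume :=
      Measure.integrableOn_of_bounded (Bx_lt_top u v).ne hmeas.aestronglyMeasurable
        (M := KK ^ r * X) ((ae_restrict_iff' (measurableSet_Bx u v)).2 (Eventually.of_forall hbd))
    rw [h1, ← integral_sub hint (integrable_const _)]
    have h2 := norm_setIntegral_le_of_norm_le_const (μ := (volume : Measure (Fin k → ℝ))) (s := Bx u v)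
      (f := fun c => ∏ p ∈ P, Av α p h (amp G ω c p) - ∏ p ∈ P, mu α p) (Bx_lt_top _ _) (fun c hc => by
        rw [Real.norm_eq_abs]
        exact hprod c hc)
    rw [Real.norm_eq_abs] at h2
    rw [mul_comm V]
    exact h2
  have e3 : (CS + V * (k * KK ^ k * C1) + 1) / √m * X = CS / √m * X + V * (k * KK ^ k * C1 / √m * X) +
      X / √m := by ring
  rw [e3]
  have e4 : 0 ≤ X / √(m : ℝ) := by positivity
  rw [abs_le] at *
  constructor
  · linarith [hcomp.1, hI.1]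
  · linarith [hcomp.2, hI.2]

end Pool.Agent.Helper92K9.MP
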